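import Pool.Agent.PW.Vanish

/-!
# Classes with finite orbit
-/

namespace Pool.Agent.PW

variable {g n : ℕ}

open Classical in
/-- A function on `K` extended by zero. -/
noncomputable def ext0 (K : Subgroup (F g n)) (f : K → ℚ) (x : F g n) : ℚ :=
  if h : x ∈ K then f ⟨x, h⟩ else 0

theorem ext0_mem {K : Subgroup (F g n)} {f : K → ℚ} {x : F g n} (h : x ∈ K) :
    ext0 K f x = f ⟨x, h⟩ := dif_pos h

theorem good_of_finite {K : Subgroup (F g n)} [K.FiniteIndex] (hR : bdry g n ∈ K.normalCore)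
    {f : K → ℚ} (hf : IsClass K f) (hfin : (orbit K f).Finite) : Good K.normalCore (ext0 K f) := by
  have hle : K.normalCore ≤ K := K.normalCore_le
  have hN : K.normalCore.Normal := K.normalCore_normal
  refine ⟨hN, inferInstance, ?_, hR, ?_, ?_, ?_⟩
  · intro x hx y hy
    rw [ext0_mem (K.mul_mem (hle hx) (hle hy)), ext0_mem (hle hx), ext0_mem (hle hy), ← hf.add]
    rfl
  · intro w
    have h1 : w * bdry g n * w⁻¹ ∈ K := hle (hN.conj_mem _ hR w)
    rw [ext0_mem h1]
    exact hf.bdry _ (isConj_iff.mpr ⟨w, rfl⟩).symm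
  · intro w j m hm
    have h1 : w * gc j ^ m * w⁻¹ ∈ K := hle (hN.conj_mem _ hm w)
    rw [ext0_mem h1]
    exact hf.marked _ j m (isConj_iff.mpr ⟨w, rfl⟩).symm
  · intro T hT L hL hx
    have hx' : ∀ (j : ℕ) (x : F g n), ((T ^ L) ^ j) x * x⁻¹ ∈ K.normalCore := by
      intro j
      induction j with
      | zero =>
        intro x
        simp [K.normalCore.one_mem]
      | succ j ih =>
        intro x
        rw [pow_succ, MulAut.mul_apply]
        have := K.normalCore.mul_mem (ih ((T ^ L) x)) (hx x)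
        have e : ((T ^ L) ^ j) ((T ^ L) x) * ((T ^ L) x)⁻¹ * ((T ^ L) x * x⁻¹) =
            ((T ^ L) ^ j) ((T ^ L) x) * x⁻¹ := by group
        rwa [e] at this
    have hK : ∀ (j : ℕ) (x : F g n), x ∈ K ↔ ((T ^ L) ^ j) x ∈ K := by
      intro j x
      have h1 := hle (hx' j x)
      constructor
      · intro h
        have := K.mul_mem h1 h
        rwa [inv_mul_cancel_right] at this
      · intro h
        have := K.mul_mem (K.inv_mem h1) h
        have e : (((T ^ L) ^ j) x * x⁻¹)⁻¹ * ((T ^ L) ^ j) x = x := by group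
        rwa [e] at this
    let o : ℕ → orbit K f := fun j =>
      ⟨fun x => f ⟨((T ^ L) ^ j) x, (hK j x).1 x.2⟩, (T ^ L) ^ j,
        (MCG g n).pow_mem ((MCG g n).pow_mem hT L) j, hK j, fun _ => rfl⟩
    have : Finite (orbit K f) := hfin
    obtain ⟨i, j, hij, ho⟩ := Finite.exists_ne_map_eq_of_infinite o
    wlog hlt : i < j generalizing i j with H
    · exact H j i hij.symm ho.symm (lt_of_le_of_ne (not_lt.mp hlt) hij.symm)
    refine ⟨L * (j - i), Nat.mul_pos hL (Nat.sub_pos_of_lt hlt), Dvd.intro _ rfl, fun x hxN => ?_⟩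
    have hxK : x ∈ K := hle hxN
    set y := (((T ^ L) ^ i)⁻¹ : MulAut (F g n)) x with hy
    have hyx : ((T ^ L) ^ i) y = x := by
      rw [hy]
      simp
    have hyK : y ∈ K := by
      rw [hK i, hyx]
      exact hxK
    have h1 := congrFun (congrArg Subtype.val ho) ⟨y, hyK⟩
    have h2 : f ⟨((T ^ L) ^ i) y, (hK i y).1 hyK⟩ = f ⟨((T ^ L) ^ j) y, (hK j y).1 hyK⟩ := h1
    have h3 : ((T ^ L) ^ j) y = (T ^ (L * (j - i))) x := by
      have : j = (j - i) + i := by omega
      rw [this, pow_add, MulAut.mul_apply, hyx, ← pow_mul]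
      congr 3
      omega
    have h4 : (T ^ (L * (j - i))) x ∈ K := by
      rw [← h3]
      exact (hK j y).1 hyK
    rw [ext0_mem h4, ext0_mem hxK]
    have e1 : (⟨((T ^ L) ^ i) y, (hK i y).1 hyK⟩ : K) = ⟨x, hxK⟩ := Subtype.ext hyx
    have e2 : (⟨((T ^ L) ^ j) y, (hK j y).1 hyK⟩ : K) = ⟨(T ^ (L * (j - i))) x, h4⟩ :=
      Subtype.ext h3
    rw [e1, e2] at h2
    exact h2.symm

theorem infinite_of_central {K : Subgroup (F g n)} [K.FiniteIndex]
    (hR : bdry g n ∈ K.normalCore) (hc : CentralHandle K) {f : K → ℚ} (hf : IsClass K f)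
    (h0 : f ≠ 0) : (orbit K f).Infinite := by
  intro hfin
  have hg := good_of_finite hR hf hfin
  have hN : K.normalCore.Normal := K.normalCore_normal
  obtain ⟨φ, hφ, hpos, hca, hcb⟩ := hc
  have cen : ∀ y : F g n, ((y : F g n) : Deck K) ∈ Subgroup.center (Deck K) →
      ∀ x, cm y x ∈ K.normalCore := by
    intro y hy x
    rw [← QuotientGroup.eq_one_iff]
    rw [Subgroup.mem_center_iff] at hy
    have h1 := hy ((x : F g n) : Deck K)
    unfold cm
    rw [QuotientGroup.mk_mul, QuotientGroup.mk_mul, QuotientGroup.mk_mul, ← h1,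
      QuotientGroup.mk_inv, QuotientGroup.mk_inv]
    group
  have hgc := hg.comp hφ
  have key := fun x (hx : x ∈ K.normalCore.comap φ.toMonoidHom) =>
    hgc.vanish (z := ⟨0, hpos⟩) rfl (fun x => by
      show φ (cm _ x) ∈ K.normalCore
      have e : φ (cm (ga ⟨0, hpos⟩) x) = cm (φ (ga ⟨0, hpos⟩)) (φ x) := by
        simp [cm]
      rw [e]
      exact cen _ hca _) (fun x => by
      show φ (cm _ x) ∈ K.normalCore
      have e : φ (cm (gb ⟨0, hpos⟩) x) = cm (φ (gb ⟨0, hpos⟩)) (φ x) := by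
        simp [cm]
      rw [e]
      exact cen _ hcb _) hx
  have hzero : ∀ y ∈ K.normalCore, ext0 K f y = 0 := by
    intro y hy
    have h1 : φ (φ⁻¹ y) = y := by simp
    have := key (φ⁻¹ y) (by
      show φ (φ⁻¹ y) ∈ K.normalCore
      rw [h1]
      exact hy)
    rwa [h1] at this
  apply h0
  funext x
  obtain ⟨L, hL, hLN⟩ := exists_exp hN hg.fin
  have h1 := hzero _ (hLN (x : F g n))
  have h2 : (x : F g n) ^ L ∈ K := K.pow_mem x.2 L
  rw [ext0_mem h2] at h1
  have h3 : ∀ m : ℕ, f (x ^ m) = m * f x := by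
    have hone : f 1 = 0 := by
      have := hf.add 1 1
      rw [mul_one] at this
      linarith
    intro m
    induction m with
    | zero => simp [hone]
    | succ m ih =>
      rw [pow_succ, hf.add, ih]
      push_cast
      ring
  have h4 : (⟨(x : F g n) ^ L, h2⟩ : K) = x ^ L := rfl
  rw [h4, h3] at h1
  have h5 : (L : ℚ) ≠ 0 := by exact_mod_cast hL.ne'
  rcases mul_eq_zero.mp h1 with h6 | h6
  · exact absurd h6 h5
  · exact h6

end Pool.Agent.PW
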