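import Pool.Agent.PW.Good

/-!
# A central handle kills the classes with finite orbit
-/

namespace Pool.Agent.PW

variable {g n : ℕ}

/-- A subgroup with the moved generators contains all the generators away from the first handle. -/
theorem gen_moved {E : Subgroup (F g n)} {z : Fin g} (hz : (z : ℕ) = 0)
    (h1 : ∀ j, j ≠ z → sw z j ∈ E ∧ sw z j * tw z j ∈ E) (h2 : ∀ j, sc z j ∈ E) :
    (∀ j, j ≠ z → ga j ∈ E ∧ gb j ∈ E) ∧ ∀ j, gc j ∈ E := by
  have step : ∀ j : Fin g, j ≠ z → seg g n 1 (j - 1) ∈ E → ga j ∈ E ∧ gb j ∈ E := by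
    intro j hj hs
    have hmid : mid g n z j = seg g n 1 (j - 1) := by
      unfold mid
      rw [hz]
      rfl
    obtain ⟨h3, h4⟩ := h1 j hj
    have h5 : tw z j ∈ E := by
      have := E.mul_mem (E.inv_mem h3) h4
      rwa [inv_mul_cancel_left] at this
    rw [sw, hmid] at h3
    rw [tw, hmid] at h5
    refine ⟨?_, ?_⟩
    · have := E.mul_mem (E.mul_mem (E.inv_mem hs) h3) hs
      have e : (seg g n 1 (j - 1))⁻¹ * (seg g n 1 (j - 1) * ga j * (seg g n 1 (j - 1))⁻¹) *
          seg g n 1 (j - 1) = ga j := by group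
      rwa [e] at this
    · have := E.mul_mem (E.mul_mem (E.inv_mem hs) h5) hs
      have e : (seg g n 1 (j - 1))⁻¹ * (seg g n 1 (j - 1) * gb j * (seg g n 1 (j - 1))⁻¹) *
          seg g n 1 (j - 1) = gb j := by group
      rwa [e] at this
  have hseg : ∀ m, seg g n 1 m ∈ E := by
    intro m
    induction m with
    | zero =>
      rw [seg_zero]
      exact E.one_mem
    | succ m ih =>
      rw [seg_add, seg_one]
      apply E.mul_mem ih
      by_cases hm : 1 + m < g
      · have hj : (⟨1 + m, hm⟩ : Fin g) ≠ z := by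
          intro h
          rw [← h] at hz
          simp at hz
        have h3 := step ⟨1 + m, hm⟩ hj (by
          have : ((⟨1 + m, hm⟩ : Fin g) : ℕ) - 1 = m := by simp
          rw [this]
          exact ih)
        have h4 : hd g n (1 + m) = cm (ga ⟨1 + m, hm⟩) (gb ⟨1 + m, hm⟩) := hd_fin ⟨1 + m, hm⟩
        rw [h4]
        exact E.mul_mem (E.mul_mem (E.mul_mem h3.1 h3.2) (E.inv_mem h3.1)) (E.inv_mem h3.2)
      · simp only [hd, hm, dif_neg, not_false_iff]
        exact E.one_mem
  have stepc : ∀ j : Fin n, cseg g n 0 j ∈ E → gc j ∈ E := by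
    intro j hs
    have hmid : midc g n z j = seg g n 1 (g - 1) * cseg g n 0 j := by
      unfold midc
      rw [hz]
      rfl
    have hm : midc g n z j ∈ E := by
      rw [hmid]
      exact E.mul_mem (hseg _) hs
    have h3 := h2 j
    rw [sc] at h3
    have := E.mul_mem (E.mul_mem (E.inv_mem hm) h3) hm
    have e : (midc g n z j)⁻¹ * (midc g n z j * gc j * (midc g n z j)⁻¹) * midc g n z j = gc j := by
      group
    rwa [e] at this
  have hcseg : ∀ m, cseg g n 0 m ∈ E := by
    intro m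
    induction m with
    | zero =>
      rw [cseg_zero]
      exact E.one_mem
    | succ m ih =>
      rw [cseg_add, cseg_one]
      apply E.mul_mem ih
      rw [Nat.zero_add]
      by_cases hm : m < n
      · have h4 : pc g n m = gc ⟨m, hm⟩ := pc_fin ⟨m, hm⟩
        rw [h4]
        exact stepc ⟨m, hm⟩ ih
      · simp only [pc, hm, dif_neg, not_false_iff]
        exact E.one_mem
  exact ⟨fun j hj => step j hj (hseg _), fun j => stepc j (hcseg _)⟩

theorem e2h_mid (i j : Fin g) (h : (i : ℕ) < j) (k : ℤ) :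
    e2h j k (mid g n i j) = mid g n i j := by
  apply seg_congr (ψ := MonoidHom.id _)
  intro l h1 h2
  have hlj : l ≠ j := by
    rintro rfl
    omega
  exact ⟨e2h_a' hlj _, e2h_b _ _ _⟩

theorem e2h_sw (i j : Fin g) (h : (i : ℕ) < j) :
    e2h (n := n) j 1 (sw i j) = sw i j * tw i j := by
  unfold sw tw
  rw [map_mul, map_mul, map_inv, e2h_mid i j h, e2h_a]
  group

theorem e2h_pw (i j : Fin g) (h : (i : ℕ) < j) :
    e2h (n := n) j 1 (pw i j) = gb i * (ga i)⁻¹ * (gb i)⁻¹ * (sw i j * tw i j) := by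
  have hij : i ≠ j := by
    rintro rfl
    omega
  unfold pw
  rw [map_mul, map_mul, map_mul, map_inv, map_inv, e2h_b, e2h_a' hij, e2h_sw i j h]

theorem pos_of_ne {z : Fin g} (hz : (z : ℕ) = 0) {j : Fin g} (hj : j ≠ z) : (z : ℕ) < j := by
  rw [hz]
  apply Nat.pos_of_ne_zero
  intro h
  apply hj
  apply Fin.ext
  rw [h, hz]

/-- A subgroup with `a 0` and all the images of `b 0` is everything. -/
theorem gen_images {E : Subgroup (F g n)} {z : Fin g} (hz : (z : ℕ) = 0) (ha : ga z ∈ E)
    (h : ∀ φ ∈ MCG g n, φ (ga z) = ga z → φ (gb z) ∈ E) : E = ⊤ := by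
  have hb : gb z ∈ E := h 1 (MCG g n).one_mem rfl
  have cancel : ∀ s : F g n, gb z * (ga z)⁻¹ * (gb z)⁻¹ * s * gb z ∈ E → s ∈ E := by
    intro s hs
    have h1 : gb z * (ga z)⁻¹ * (gb z)⁻¹ ∈ E :=
      E.mul_mem (E.mul_mem hb (E.inv_mem ha)) (E.inv_mem hb)
    have := E.mul_mem (E.mul_mem (E.inv_mem h1) hs) (E.inv_mem hb)
    have e : (gb z * (ga z)⁻¹ * (gb z)⁻¹)⁻¹ * (gb z * (ga z)⁻¹ * (gb z)⁻¹ * s * gb z) *
        (gb z)⁻¹ = s := by group
    rwa [e] at this
  have key := gen_moved (E := E) hz (fun j hj => ?_) (fun j => ?_)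
  · refine eq_top_of_gens (fun i => ?_) (fun i => ?_) key.2
    · by_cases hi : i = z
      · rw [hi]
        exact ha
      · exact (key.1 i hi).1
    · by_cases hi : i = z
      · rw [hi]
        exact hb
      · exact (key.1 i hi).2
  · have hlt := pos_of_ne hz hj
    constructor
    · apply cancel
      have h1 := h (psh z j hlt 1) (psh_mem hlt 1) (by rw [psh_apply, ph_ai hlt])
      rw [psh_apply, ph_bi, zpow_one, pw] at h1
      exact h1
    · apply cancel
      have h1 := h (e2 j 1 * psh z j hlt 1) ((MCG g n).mul_mem (e2_mem j 1) (psh_mem hlt 1)) (by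
        rw [MulAut.mul_apply, psh_apply, ph_ai hlt, e2_apply, e2h_a' hj.symm])
      rw [MulAut.mul_apply, psh_apply, ph_bi, zpow_one, e2_apply, map_mul, e2h_pw z j hlt,
        e2h_b] at h1
      exact h1
  · apply cancel
    have h1 := h (qsh z j 1) (qsh_mem 1) (by rw [qsh_apply, qh_a])
    rw [qsh_apply, qh_bi, zpow_one, qw] at h1
    exact h1

variable {N : Subgroup (F g n)} {f : F g n → ℚ}

theorem cm_mul_right {G : Type*} [Group G] (a x y : G) :
    cm a (x * y) = cm a x * (x * cm a y * x⁻¹) := by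
  unfold cm
  group

theorem cm_inv_right {G : Type*} [Group G] (a x : G) : cm a x⁻¹ = x⁻¹ * (cm a x)⁻¹ * x := by
  unfold cm
  group

/-- If `a 0` is central then `f` does not change under conjugation by `a 0`. -/
theorem Good.inv_a (h : Good N f) {z : Fin g} (hz : (z : ℕ) = 0) (hcen : ∀ x, cm (ga z) x ∈ N)
    {x : F g n} (hx : x ∈ N) : f (ga z * x * (ga z)⁻¹) = f x := by
  have hN := h.normal
  let E : Subgroup (F g n) :=
    { carrier := {x | ∀ w, f (w * cm (ga z) x * w⁻¹) = 0}
      one_mem' := by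
        intro w
        have : w * cm (ga z) 1 * w⁻¹ = 1 := by
          unfold cm
          group
        rw [this, h.add.one]
      mul_mem' := by
        intro x y hx hy w
        have e : w * cm (ga z) (x * y) * w⁻¹ =
            (w * cm (ga z) x * w⁻¹) * ((w * x) * cm (ga z) y * (w * x)⁻¹) := by
          rw [cm_mul_right]
          group
        rw [e, h.add _ (hN.conj_mem _ (hcen x) w) _ (hN.conj_mem _ (hcen y) (w * x)), hx, hy,
          add_zero]
      inv_mem' := by
        intro x hx w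
        have e : w * cm (ga z) x⁻¹ * w⁻¹ = ((w * x⁻¹) * cm (ga z) x * (w * x⁻¹)⁻¹)⁻¹ := by
          rw [cm_inv_right]
          group
        rw [e, h.add.inv (hN.conj_mem _ (hcen x) _), hx, neg_zero] }
  have hE : E = ⊤ := by
    apply gen_images hz
    · intro w
      have : w * cm (ga z) (ga z) * w⁻¹ = 1 := by
        unfold cm
        group
      rw [this, h.add.one]
    · intro φ hφ hφa w
      have := h.kill_d' hz hφ (m := 1) (by
        rw [hφa, pow_one]
        exact hcen _) w
      rwa [hφa, pow_one] at this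
  have hxE : x ∈ E := by
    rw [hE]
    trivial
  have h0 := hxE 1
  have e0 : (1 : F g n) * cm (ga z) x * 1⁻¹ = cm (ga z) x := by group
  rw [e0] at h0
  have e : ga z * x * (ga z)⁻¹ = cm (ga z) x * x := by
    unfold cm
    group
  rw [e, h.add _ (hcen x) _ hx, h0, zero_add]

/-- The automorphism which moves `a 0` to a conjugate of `b 0`. -/
theorem swap_ab (z : Fin g) : ∃ φ ∈ MCG g n, φ (ga z) = ga z * gb z * (ga z)⁻¹ := by
  refine ⟨e1 z (-1) * e2 z 1, (MCG g n).mul_mem (e1_mem _ _) (e2_mem _ _), ?_⟩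
  rw [MulAut.mul_apply, e2_apply, e2h_a, zpow_one, e1_apply, map_mul, e1h_a, e1h_b]
  group

/-- The automorphism which moves `b 0` to a conjugate of `a 0`. -/
theorem swap_ba (z : Fin g) : ∃ φ ∈ MCG g n, φ (gb z) = gb z * ga z * (gb z)⁻¹ := by
  refine ⟨e2 z (-1) * e1 z 1, (MCG g n).mul_mem (e2_mem _ _) (e1_mem _ _), ?_⟩
  rw [MulAut.mul_apply, e1_apply, e1h_b, zpow_one, e2_apply, map_mul, e2h_b, e2h_a]
  group

theorem cm_mem_conj (hN : N.Normal) {b : F g n} (h : ∀ x, cm b x ∈ N) (v x : F g n) :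
    cm (v * b * v⁻¹) x ∈ N := by
  have e : cm (v * b * v⁻¹) x = v * cm b (v⁻¹ * x * v) * v⁻¹ := by
    unfold cm
    group
  rw [e]
  exact hN.conj_mem _ (h _) v

/-- If `a 0` and `b 0` are central then `f` does not change under conjugation by `b 0`. -/
theorem Good.inv_b (h : Good N f) {z : Fin g} (hz : (z : ℕ) = 0) (hcen : ∀ x, cm (ga z) x ∈ N)
    (hcen' : ∀ x, cm (gb z) x ∈ N) {x : F g n} (hx : x ∈ N) :
    f (gb z * x * (gb z)⁻¹) = f x := by
  have hN := h.normal
  obtain ⟨φ, hφ, hφa⟩ := swap_ab (n := n) z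
  have h1 : ∀ y ∈ N, f ((ga z * gb z * (ga z)⁻¹) * y * (ga z * gb z * (ga z)⁻¹)⁻¹) = f y := by
    intro y hy
    have := (h.comp hφ).inv_a hz (x := φ⁻¹ y) (by
      intro x
      show φ (cm (ga z) x) ∈ N
      have e : φ (cm (ga z) x) = cm (ga z * gb z * (ga z)⁻¹) (φ x) := by
        simp [cm, hφa]
      rw [e]
      exact cm_mem_conj hN hcen' _ _) (by
      show φ (φ⁻¹ y) ∈ N
      simpa using hy)
    have e : φ (ga z * φ⁻¹ y * (ga z)⁻¹) =
        (ga z * gb z * (ga z)⁻¹) * y * (ga z * gb z * (ga z)⁻¹)⁻¹ := by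
      rw [map_mul, map_mul, map_inv, hφa]
      simp
    rw [e] at this
    rw [this]
    simp
  have m1 : gb z * x * (gb z)⁻¹ ∈ N := hN.conj_mem _ hx _
  have m2 : ga z * x * (ga z)⁻¹ ∈ N := hN.conj_mem _ hx _
  rw [← h.inv_a hz hcen m1]
  have e : ga z * (gb z * x * (gb z)⁻¹) * (ga z)⁻¹ =
      (ga z * gb z * (ga z)⁻¹) * (ga z * x * (ga z)⁻¹) * (ga z * gb z * (ga z)⁻¹)⁻¹ := by group
  rw [e, h1 _ m2, h.inv_a hz hcen hx]

/-- A class with finite orbit vanishes on the powers of `a 0`. -/
theorem Good.kill_a (h : Good N f) {z : Fin g} (hz : (z : ℕ) = 0) {m : ℕ} (hm : ga z ^ m ∈ N)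
    (w : F g n) : f (w * ga z ^ m * w⁻¹) = 0 := by
  have hN := h.normal
  obtain ⟨φ, hφ, hφb⟩ := swap_ba (n := n) z
  have := h.kill_b' hz hφ (m := m) (by
    rw [hφb, conj_pow]
    exact hN.conj_mem _ hm _) (w * (gb z)⁻¹)
  have e : w * (gb z)⁻¹ * φ (gb z) ^ m * (w * (gb z)⁻¹)⁻¹ = w * ga z ^ m * w⁻¹ := by
    rw [hφb, conj_pow]
    group
  rwa [e] at this

/-! ### The pushes modulo `a 0` -/

/-- The subgroup generated by the generators away from the first handle. -/
def away (z : Fin g) : Subgroup (F g n) :=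
  Subgroup.closure ({x | ∃ j, j ≠ z ∧ (x = ga j ∨ x = gb j)} ∪ {x | ∃ j, x = gc j})

theorem away_a {z j : Fin g} (h : j ≠ z) : ga j ∈ away (n := n) z :=
  Subgroup.subset_closure (Or.inl ⟨j, h, Or.inl rfl⟩)

theorem away_b {z j : Fin g} (h : j ≠ z) : gb j ∈ away (n := n) z :=
  Subgroup.subset_closure (Or.inl ⟨j, h, Or.inr rfl⟩)

theorem away_c (z : Fin g) (j : Fin n) : gc j ∈ away (n := n) z :=
  Subgroup.subset_closure (Or.inr ⟨j, rfl⟩)

/-- The quotient map which kills `a 0`. -/
def qa (n : ℕ) (z : Fin g) : F g n →* F g n ⧸ Subgroup.normalClosure {(ga z : F g n)} :=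
  QuotientGroup.mk' _

theorem qa_a (z : Fin g) : qa n z (ga z) = 1 := by
  unfold qa
  rw [QuotientGroup.mk'_apply, QuotientGroup.eq_one_iff]
  exact Subgroup.subset_normalClosure rfl

theorem qa_eq {z : Fin g} {x y : F g n} (h : qa n z x = qa n z y) {φ : MulAut (F g n)}
    (hφ : φ (ga z) = ga z) : qa n z (φ x) = qa n z (φ y) := by
  unfold qa at *
  rw [QuotientGroup.mk'_apply, QuotientGroup.mk'_apply, QuotientGroup.eq] at *
  rw [← map_inv, ← map_mul]
  have : Subgroup.normalClosure {(ga z : F g n)} ≤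
      (Subgroup.normalClosure {(ga z : F g n)}).comap φ.toMonoidHom := by
    apply Subgroup.normalClosure_le_normal
    rintro _ rfl
    show φ (ga z) ∈ Subgroup.normalClosure {(ga z : F g n)}
    rw [hφ]
    exact Subgroup.subset_normalClosure rfl
  exact this h

/-- The mapping classes which fix `a 0` and act trivially away from the handle modulo `a 0`. -/
def Mild (z : Fin g) (φ : MulAut (F g n)) : Prop :=
  φ ∈ MCG g n ∧ φ (ga z) = ga z ∧ ∀ x ∈ away z, qa n z (φ x) = qa n z x

theorem mild_of_gens {z : Fin g} {φ : MulAut (F g n)} (h1 : φ ∈ MCG g n) (h2 : φ (ga z) = ga z)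
    (h3 : ∀ j, j ≠ z → qa n z (φ (ga j)) = qa n z (ga j) ∧ qa n z (φ (gb j)) = qa n z (gb j))
    (h4 : ∀ j, qa n z (φ (gc j)) = qa n z (gc j)) : Mild z φ := by
  refine ⟨h1, h2, ?_⟩
  have : away z ≤ ((qa n z).comp φ.toMonoidHom).eqLocus (qa n z) := by
    unfold away
    rw [Subgroup.closure_le]
    rintro x (⟨j, hj, rfl | rfl⟩ | ⟨j, rfl⟩)
    · exact (h3 j hj).1
    · exact (h3 j hj).2
    · exact h4 j
  exact fun x hx => this hx

theorem Mild.mul {z : Fin g} {φ ψ : MulAut (F g n)} (h1 : Mild z φ) (h2 : Mild z ψ) :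
    Mild z (φ * ψ) := by
  refine ⟨(MCG g n).mul_mem h1.1 h2.1, ?_, ?_⟩
  · rw [MulAut.mul_apply, h2.2.1, h1.2.1]
  · intro x hx
    rw [MulAut.mul_apply, qa_eq (h2.2.2 x hx) h1.2.1, h1.2.2 x hx]

theorem Mild.inv {z : Fin g} {φ : MulAut (F g n)} (h : Mild z φ) : Mild z φ⁻¹ := by
  have ha : φ⁻¹ (ga z) = ga z := by
    conv_lhs => rw [← h.2.1]
    simp
  refine ⟨(MCG g n).inv_mem h.1, ha, ?_⟩
  intro x hx
  have h1 := qa_eq (h.2.2 x hx) ha
  rw [← h1]
  simp

theorem Mild.one (z : Fin g) : Mild z (1 : MulAut (F g n)) :=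
  ⟨(MCG g n).one_mem, rfl, fun _ _ => rfl⟩

/-- The elements by which `b 0` can be multiplied. -/
def pushable (n : ℕ) (z : Fin g) : Subgroup (F g n) where
  carrier := {y | y ∈ away z ∧ ∃ φ, Mild z φ ∧ qa n z (φ (gb z)) = qa n z (y * gb z)}
  one_mem' := ⟨(away z).one_mem, 1, Mild.one z, by rw [one_mul]; rfl⟩
  mul_mem' := by
    rintro x y ⟨hx, φ, hφ, h1⟩ ⟨hy, ψ, hψ, h2⟩
    refine ⟨(away z).mul_mem hx hy, ψ * φ, hψ.mul hφ, ?_⟩
    rw [MulAut.mul_apply, qa_eq h1 hψ.2.1, map_mul, map_mul, hψ.2.2 x hx, h2, ← map_mul, mul_assoc]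
  inv_mem' := by
    rintro x ⟨hx, φ, hφ, h1⟩
    refine ⟨(away z).inv_mem hx, φ⁻¹, hφ.inv, ?_⟩
    have h2 := qa_eq h1 hφ.inv.2.1
    have e : φ⁻¹ (φ (gb z)) = gb z := by simp
    rw [e, map_mul, map_mul, hφ.inv.2.2 x hx] at h2
    rw [map_mul, h2, map_inv, inv_mul_cancel_left]

theorem mid_away {z : Fin g} (hz : (z : ℕ) = 0) (j : ℕ) : mid g n z j ∈ away z := by
  apply seg_mem
  intro i h1 _
  have : i ≠ z := by
    rintro rfl
    omega
  exact ⟨away_a this, away_b this⟩

theorem midc_away {z : Fin g} (hz : (z : ℕ) = 0) (j : ℕ) : midc g n z j ∈ away z := by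
  unfold midc
  apply (away z).mul_mem
  · apply seg_mem
    intro i h1 _
    have : i ≠ z := by
      rintro rfl
      omega
    exact ⟨away_a this, away_b this⟩
  · apply cseg_mem
    intro i _ _
    exact away_c z i

theorem qa_pw (z j : Fin g) : qa n z (pw z j) = qa n z (sw z j) := by
  unfold pw
  rw [map_mul, map_mul, map_mul, map_inv, map_inv, qa_a]
  group

theorem qa_qw (z : Fin g) (j : Fin n) : qa n z (qw z j) = qa n z (sc z j) := by
  unfold qw
  rw [map_mul, map_mul, map_mul, map_inv, map_inv, qa_a]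
  group

theorem psh_mild {z j : Fin g} (h : (z : ℕ) < j) : Mild z (psh (n := n) z j h 1) := by
  apply mild_of_gens (psh_mem h 1)
  · rw [psh_apply, ph_ai h]
  · intro l hl
    by_cases hlj : l = j
    · subst hlj
      rw [psh_apply, psh_apply, ph_aj, ph_bj h]
      constructor
      · simp only [map_mul, map_inv, map_zpow, qa_pw]
        unfold sw
        simp only [map_mul, map_inv]
        group
      · simp only [map_mul, map_inv, map_zpow, qa_pw]
        unfold tw
        simp only [map_mul, map_inv]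
        group
    · rw [psh_apply, psh_apply, ph_a' hlj, ph_b' hl hlj]
      exact ⟨rfl, rfl⟩
  · intro l
    rw [psh_apply, ph_c]

theorem qsh_mild (z : Fin g) (j : Fin n) : Mild z (qsh z j 1) := by
  apply mild_of_gens (qsh_mem 1)
  · rw [qsh_apply, qh_a]
  · intro l hl
    rw [qsh_apply, qsh_apply, qh_a, qh_b' hl]
    exact ⟨rfl, rfl⟩
  · intro l
    by_cases hlj : l = j
    · subst hlj
      rw [qsh_apply, qh_cj]
      simp only [map_mul, map_inv, map_zpow, qa_qw]
      unfold sc
      simp only [map_mul, map_inv]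
      group
    · rw [qsh_apply, qh_c' hlj]

/-- All the elements away from the handle can be used. -/
theorem pushable_eq {z : Fin g} (hz : (z : ℕ) = 0) : away z ≤ pushable n z := by
  have key := gen_moved (E := pushable n z) hz (fun j hj => ?_) (fun j => ?_)
  · unfold away
    rw [Subgroup.closure_le]
    rintro x (⟨j, hj, rfl | rfl⟩ | ⟨j, rfl⟩)
    · exact (key.1 j hj).1
    · exact (key.1 j hj).2
    · exact key.2 j
  · have hlt := pos_of_ne hz hj
    have m1 : sw z j ∈ away (n := n) z := (away z).mul_mem ((away z).mul_mem (mid_away hz _)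
      (away_a hj)) ((away z).inv_mem (mid_away hz _))
    have m2 : tw z j ∈ away (n := n) z := (away z).mul_mem ((away z).mul_mem (mid_away hz _)
      (away_b hj)) ((away z).inv_mem (mid_away hz _))
    constructor
    · refine ⟨m1, psh z j hlt 1, psh_mild hlt, ?_⟩
      rw [psh_apply, ph_bi, zpow_one, map_mul, qa_pw, map_mul]
    · refine ⟨(away z).mul_mem m1 m2, e2 j 1 * psh z j hlt 1 * (e2 j 1)⁻¹, ?_, ?_⟩
      · refine ⟨(MCG g n).mul_mem ((MCG g n).mul_mem (e2_mem _ _) (psh_mild hlt).1)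
          ((MCG g n).inv_mem (e2_mem _ _)), ?_, ?_⟩
        · have e : ((e2 j 1)⁻¹ : MulAut (F g n)) (ga z) = ga z := by
            have : (e2 j 1 : MulAut (F g n)) (ga z) = ga z := by
              rw [e2_apply, e2h_a' hj.symm]
            conv_lhs => rw [← this]
            simp
          rw [MulAut.mul_apply, MulAut.mul_apply, e, (psh_mild hlt).2.1, e2_apply,
            e2h_a' hj.symm]
        · intro x hx
          have haw : away z ≤ (away z).comap ((e2 j 1)⁻¹ : MulAut (F g n)).toMonoidHom := by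
            unfold away
            rw [Subgroup.closure_le]
            rintro x (⟨l, hl, rfl | rfl⟩ | ⟨l, rfl⟩)
            · show (e2 j 1)⁻¹ (ga l) ∈ away z
              have : ((e2 j 1)⁻¹ : MulAut (F g n)) (ga l) = e2h j (-1) (ga l) := rfl
              rw [this]
              by_cases hlj : l = j
              · subst hlj
                rw [e2h_a]
                exact (away z).mul_mem (away_a hl) ((away z).zpow_mem (away_b hl) _)
              · rw [e2h_a' hlj]
                exact away_a hl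
            · show (e2 j 1)⁻¹ (gb l) ∈ away z
              have : ((e2 j 1)⁻¹ : MulAut (F g n)) (gb l) = e2h j (-1) (gb l) := rfl
              rw [this, e2h_b]
              exact away_b hl
            · show (e2 j 1)⁻¹ (gc l) ∈ away z
              have : ((e2 j 1)⁻¹ : MulAut (F g n)) (gc l) = e2h j (-1) (gc l) := rfl
              rw [this, e2h_c]
              exact away_c z l
          have h1 : (e2 j 1)⁻¹ x ∈ away z := haw hx
          rw [MulAut.mul_apply, MulAut.mul_apply]
          rw [qa_eq ((psh_mild hlt).2.2 _ h1) (by rw [e2_apply, e2h_a' hj.symm])]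
          simp
      · have e : ((e2 j 1)⁻¹ : MulAut (F g n)) (gb z) = gb z := by
          have : (e2 j 1 : MulAut (F g n)) (gb z) = gb z := by
            rw [e2_apply, e2h_b]
          conv_lhs => rw [← this]
          simp
        rw [MulAut.mul_apply, MulAut.mul_apply, e, psh_apply, ph_bi, zpow_one, e2_apply, map_mul,
          e2h_pw z j hlt, e2h_b]
        simp only [map_mul, map_inv, qa_a]
        group
  · have m1 : sc z j ∈ away (n := n) z := (away z).mul_mem ((away z).mul_mem (midc_away hz _)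
      (away_c z j)) ((away z).inv_mem (midc_away hz _))
    refine ⟨m1, qsh z j 1, qsh_mild z j, ?_⟩
    rw [qsh_apply, qh_bi, zpow_one, map_mul, qa_qw, map_mul]

end Pool.Agent.PW
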