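import Pool.Agent.PW.Words

/-!
# Some mapping classes
-/

namespace Pool.Agent.PW

variable {g n : ℕ}

/-- An automorphism from two endomorphisms. -/
def mkAut (e e' : F g n →* F g n) (h1 : e'.comp e = MonoidHom.id _) (h2 : e.comp e' = MonoidHom.id _) :
    MulAut (F g n) := MonoidHom.toMulEquiv e e' h1 h2

theorem mkAut_apply (e e' : F g n →* F g n) (h1 h2) (x : F g n) : mkAut e e' h1 h2 x = e x := rfl

/-! ### Changing one generator of a handle -/

/-- `b i ↦ b i * a i ^ k`. -/
def e1h (i : Fin g) (k : ℤ) : F g n →* F g n :=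
  FreeGroup.lift fun x => if x = Gen.b i then gb i * ga i ^ k else FreeGroup.of x

/-- `a i ↦ a i * b i ^ k`. -/
def e2h (i : Fin g) (k : ℤ) : F g n →* F g n :=
  FreeGroup.lift fun x => if x = Gen.a i then ga i * gb i ^ k else FreeGroup.of x

theorem e1h_b (i : Fin g) (k : ℤ) : e1h (n := n) i k (gb i) = gb i * ga i ^ k := by
  simp [e1h, gb]

theorem e1h_b' {i j : Fin g} (h : j ≠ i) (k : ℤ) : e1h (n := n) i k (gb j) = gb j := by
  simp [e1h, gb, h]

theorem e1h_a (i j : Fin g) (k : ℤ) : e1h (n := n) i k (ga j) = ga j := by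
  simp [e1h, ga]

theorem e1h_c (i : Fin g) (j : Fin n) (k : ℤ) : e1h (n := n) i k (gc j) = gc j := by
  simp [e1h, gc]

theorem e2h_a (i : Fin g) (k : ℤ) : e2h (n := n) i k (ga i) = ga i * gb i ^ k := by
  simp [e2h, ga]

theorem e2h_a' {i j : Fin g} (h : j ≠ i) (k : ℤ) : e2h (n := n) i k (ga j) = ga j := by
  simp [e2h, ga, h]

theorem e2h_b (i j : Fin g) (k : ℤ) : e2h (n := n) i k (gb j) = gb j := by
  simp [e2h, gb]

theorem e2h_c (i : Fin g) (j : Fin n) (k : ℤ) : e2h (n := n) i k (gc j) = gc j := by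
  simp [e2h, gc]

theorem e1h_comp (i : Fin g) (k l : ℤ) : (e1h (n := n) i k).comp (e1h i l) = e1h i (k + l) := by
  apply hom_ext
  · intro j
    simp [e1h_a]
  · intro j
    by_cases h : j = i
    · subst h
      simp only [MonoidHom.comp_apply, e1h_b, map_mul, map_zpow, e1h_a]
      group
    · simp [e1h_b' h]
  · intro j
    simp [e1h_c]

theorem e2h_comp (i : Fin g) (k l : ℤ) : (e2h (n := n) i k).comp (e2h i l) = e2h i (k + l) := by
  apply hom_ext
  · intro j
    by_cases h : j = i
    · subst h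
      simp only [MonoidHom.comp_apply, e2h_a, map_mul, map_zpow, e2h_b]
      group
    · simp [e2h_a' h]
  · intro j
    simp [e2h_b]
  · intro j
    simp [e2h_c]

theorem e1h_zero (i : Fin g) : e1h (n := n) i 0 = MonoidHom.id _ := by
  apply hom_ext
  · intro j
    simp [e1h_a]
  · intro j
    by_cases h : j = i
    · subst h
      simp [e1h_b]
    · simp [e1h_b' h]
  · intro j
    simp [e1h_c]

theorem e2h_zero (i : Fin g) : e2h (n := n) i 0 = MonoidHom.id _ := by
  apply hom_ext
  · intro j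
    by_cases h : j = i
    · subst h
      simp [e2h_a]
    · simp [e2h_a' h]
  · intro j
    simp [e2h_b]
  · intro j
    simp [e2h_c]

/-- The automorphism `b i ↦ b i * a i ^ k`. -/
def e1 (i : Fin g) (k : ℤ) : MulAut (F g n) := mkAut (e1h i k) (e1h i (-k))
  (by rw [e1h_comp, neg_add_cancel, e1h_zero]) (by rw [e1h_comp, add_neg_cancel, e1h_zero])

/-- The automorphism `a i ↦ a i * b i ^ k`. -/
def e2 (i : Fin g) (k : ℤ) : MulAut (F g n) := mkAut (e2h i k) (e2h i (-k))
  (by rw [e2h_comp, neg_add_cancel, e2h_zero]) (by rw [e2h_comp, add_neg_cancel, e2h_zero])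

theorem e1_apply (i : Fin g) (k : ℤ) (x : F g n) : e1 i k x = e1h i k x := rfl

theorem e2_apply (i : Fin g) (k : ℤ) (x : F g n) : e2 i k x = e2h i k x := rfl

theorem e2_pow (i : Fin g) (k : ℤ) (m : ℕ) : (e2 i k : MulAut (F g n)) ^ m = e2 i (k * m) := by
  induction m with
  | zero =>
    apply MulEquiv.ext
    intro x
    rw [e2_apply, Nat.cast_zero, mul_zero, e2h_zero]
    rfl
  | succ m ih =>
    rw [pow_succ, ih]
    apply MulEquiv.ext
    intro x
    rw [MulAut.mul_apply, e2_apply, e2_apply, e2_apply, ← MonoidHom.comp_apply, e2h_comp]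
    congr 2
    push_cast
    ring

theorem mem_MCG_of_fix {φ : MulAut (F g n)} (h : φ (bdry g n) = bdry g n)
    (hc : ∀ j, IsConj (φ (gc j)) (gc j : F g n)) : φ ∈ MCG g n :=
  ⟨by rw [h], hc⟩

theorem e1h_bdry (i : Fin g) (k : ℤ) : e1h i k (bdry g n) = bdry g n := by
  rw [bdry_split i]
  simp only [map_mul]
  have h1 : e1h i k (seg g n 0 i) = seg g n 0 i := by
    apply seg_congr (ψ := MonoidHom.id _)
    intro j _ hj
    have hji : j ≠ i := by
      rintro rfl
      omega
    exact ⟨e1h_a _ _ _, e1h_b' hji _⟩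
  have h2 : e1h i k (seg g n (i + 1) (g - i - 1)) = seg g n (i + 1) (g - i - 1) := by
    apply seg_congr (ψ := MonoidHom.id _)
    intro j hj _
    have hji : j ≠ i := by
      rintro rfl
      omega
    exact ⟨e1h_a _ _ _, e1h_b' hji _⟩
  have h3 : e1h i k (cseg g n 0 n) = cseg g n 0 n := by
    apply cseg_congr (ψ := MonoidHom.id _)
    intro j _ _
    exact e1h_c _ _ _
  rw [h1, h2, h3, map_cm, e1h_b, e1h_a]
  congr 2
  unfold cm
  group

theorem e2h_bdry (i : Fin g) (k : ℤ) : e2h i k (bdry g n) = bdry g n := by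
  rw [bdry_split i]
  simp only [map_mul]
  have h1 : e2h i k (seg g n 0 i) = seg g n 0 i := by
    apply seg_congr (ψ := MonoidHom.id _)
    intro j _ hj
    have hji : j ≠ i := by
      rintro rfl
      omega
    exact ⟨e2h_a' hji _, e2h_b _ _ _⟩
  have h2 : e2h i k (seg g n (i + 1) (g - i - 1)) = seg g n (i + 1) (g - i - 1) := by
    apply seg_congr (ψ := MonoidHom.id _)
    intro j hj _
    have hji : j ≠ i := by
      rintro rfl
      omega
    exact ⟨e2h_a' hji _, e2h_b _ _ _⟩
  have h3 : e2h i k (cseg g n 0 n) = cseg g n 0 n := by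
    apply cseg_congr (ψ := MonoidHom.id _)
    intro j _ _
    exact e2h_c _ _ _
  rw [h1, h2, h3, map_cm, e2h_b, e2h_a]
  congr 2
  unfold cm
  group

theorem e1_mem (i : Fin g) (k : ℤ) : e1 i k ∈ MCG g n :=
  mem_MCG_of_fix (e1h_bdry i k) fun j => by rw [e1_apply, e1h_c]

theorem e2_mem (i : Fin g) (k : ℤ) : e2 i k ∈ MCG g n :=
  mem_MCG_of_fix (e2h_bdry i k) fun j => by rw [e2_apply, e2h_c]

/-! ### The twist about a handle -/

/-- Conjugation of the handle `i` by a power of its boundary. -/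
def dh (i : Fin g) (k : ℤ) : F g n →* F g n :=
  FreeGroup.lift fun x =>
    if x = Gen.a i then cm (ga i) (gb i) ^ k * ga i * cm (ga i) (gb i) ^ (-k)
    else if x = Gen.b i then cm (ga i) (gb i) ^ k * gb i * cm (ga i) (gb i) ^ (-k)
    else FreeGroup.of x

theorem dh_a (i : Fin g) (k : ℤ) :
    dh (n := n) i k (ga i) = cm (ga i) (gb i) ^ k * ga i * cm (ga i) (gb i) ^ (-k) := by
  simp [dh, ga]

theorem dh_b (i : Fin g) (k : ℤ) :
    dh (n := n) i k (gb i) = cm (ga i) (gb i) ^ k * gb i * cm (ga i) (gb i) ^ (-k) := by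
  simp [dh, gb]

theorem dh_a' {i j : Fin g} (h : j ≠ i) (k : ℤ) : dh (n := n) i k (ga j) = ga j := by
  simp [dh, ga, h]

theorem dh_b' {i j : Fin g} (h : j ≠ i) (k : ℤ) : dh (n := n) i k (gb j) = gb j := by
  simp [dh, gb, h]

theorem dh_c (i : Fin g) (j : Fin n) (k : ℤ) : dh (n := n) i k (gc j) = gc j := by
  simp [dh, gc]

theorem dh_cm (i : Fin g) (k : ℤ) :
    dh (n := n) i k (cm (ga i) (gb i)) = cm (ga i) (gb i) := by
  rw [map_cm, dh_a, dh_b]
  generalize hd : (cm (ga i) (gb i) : F g n) = d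
  have : cm (d ^ k * ga i * d ^ (-k)) (d ^ k * gb i * d ^ (-k)) =
      d ^ k * cm (ga i) (gb i) * d ^ (-k) := by
    unfold cm
    group
  rw [this, hd]
  group

theorem dh_comp (i : Fin g) (k l : ℤ) : (dh (n := n) i k).comp (dh i l) = dh i (k + l) := by
  apply hom_ext
  · intro j
    by_cases h : j = i
    · subst h
      simp only [MonoidHom.comp_apply, dh_a, map_mul, map_zpow, dh_cm]
      group
    · simp [dh_a' h]
  · intro j
    by_cases h : j = i
    · subst h
      simp only [MonoidHom.comp_apply, dh_b, map_mul, map_zpow, dh_cm]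
      group
    · simp [dh_b' h]
  · intro j
    simp [dh_c]

theorem dh_zero (i : Fin g) : dh (n := n) i 0 = MonoidHom.id _ := by
  apply hom_ext
  · intro j
    by_cases h : j = i
    · subst h
      simp [dh_a]
    · simp [dh_a' h]
  · intro j
    by_cases h : j = i
    · subst h
      simp [dh_b]
    · simp [dh_b' h]
  · intro j
    simp [dh_c]

/-- The twist about the handle `i`. -/
def dt (i : Fin g) (k : ℤ) : MulAut (F g n) := mkAut (dh i k) (dh i (-k))
  (by rw [dh_comp, neg_add_cancel, dh_zero]) (by rw [dh_comp, add_neg_cancel, dh_zero])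

theorem dt_apply (i : Fin g) (k : ℤ) (x : F g n) : dt i k x = dh i k x := rfl

theorem dt_pow (i : Fin g) (k : ℤ) (m : ℕ) : (dt i k : MulAut (F g n)) ^ m = dt i (k * m) := by
  induction m with
  | zero =>
    apply MulEquiv.ext
    intro x
    rw [dt_apply, Nat.cast_zero, mul_zero, dh_zero]
    rfl
  | succ m ih =>
    rw [pow_succ, ih]
    apply MulEquiv.ext
    intro x
    rw [MulAut.mul_apply, dt_apply, dt_apply, dt_apply, ← MonoidHom.comp_apply, dh_comp]
    congr 2
    push_cast
    ring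

theorem dh_bdry (i : Fin g) (k : ℤ) : dh i k (bdry g n) = bdry g n := by
  rw [bdry_split i]
  simp only [map_mul]
  have h1 : dh i k (seg g n 0 i) = seg g n 0 i := by
    apply seg_congr (ψ := MonoidHom.id _)
    intro j _ hj
    have hji : j ≠ i := by
      rintro rfl
      omega
    exact ⟨dh_a' hji _, dh_b' hji _⟩
  have h2 : dh i k (seg g n (i + 1) (g - i - 1)) = seg g n (i + 1) (g - i - 1) := by
    apply seg_congr (ψ := MonoidHom.id _)
    intro j hj _
    have hji : j ≠ i := by
      rintro rfl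
      omega
    exact ⟨dh_a' hji _, dh_b' hji _⟩
  have h3 : dh i k (cseg g n 0 n) = cseg g n 0 n := by
    apply cseg_congr (ψ := MonoidHom.id _)
    intro j _ _
    exact dh_c _ _ _
  rw [h1, h2, h3, dh_cm]

theorem dt_mem (i : Fin g) (k : ℤ) : dt i k ∈ MCG g n :=
  mem_MCG_of_fix (dh_bdry i k) fun j => by rw [dt_apply, dh_c]

/-! ### Pushing a foot of the handle `i` through the handle `j` -/

theorem push_word {G : Type*} [Group G] (a b s t p : G) (k : ℤ) (hp : p = b * a⁻¹ * b⁻¹ * s) :
    cm a (p ^ k * b) * cm (p ^ k * s * p ^ (-k)) (t * s ^ k * p ^ (-k)) = cm a b * cm s t := by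
  have ha : a = b⁻¹ * s * p⁻¹ * b := by
    rw [hp]
    group
  rw [ha]
  unfold cm
  group

theorem push_word2 {G : Type*} [Group G] (a b s p : G) (k : ℤ) (hp : p = b * a⁻¹ * b⁻¹ * s) :
    cm a (p ^ k * b) * (p ^ k * s * p ^ (-k)) = cm a b * s := by
  have ha : a = b⁻¹ * s * p⁻¹ * b := by
    rw [hp]
    group
  rw [ha]
  unfold cm
  group

/-- The handles between `i` and `j`. -/
def mid (g n : ℕ) (i j : ℕ) : F g n := seg g n (i + 1) (j - i - 1)

/-- `a j` moved next to the handle `i`. -/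
def sw (i j : Fin g) : F g n := mid g n i j * ga j * (mid g n i j)⁻¹

/-- `b j` moved next to the handle `i`. -/
def tw (i j : Fin g) : F g n := mid g n i j * gb j * (mid g n i j)⁻¹

/-- The curve about which we push. -/
def pw (i j : Fin g) : F g n := gb i * (ga i)⁻¹ * (gb i)⁻¹ * sw i j

/-- The push. -/
def ph (i j : Fin g) (k : ℤ) : F g n →* F g n :=
  FreeGroup.lift fun x =>
    if x = Gen.b i then pw i j ^ k * gb i
    else if x = Gen.a j then (mid g n i j)⁻¹ * (pw i j ^ k * sw i j * pw i j ^ (-k)) * mid g n i j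
    else if x = Gen.b j then
      (mid g n i j)⁻¹ * (tw i j * sw i j ^ k * pw i j ^ (-k)) * mid g n i j
    else FreeGroup.of x

section

variable {i j : Fin g}

theorem ph_bi (k : ℤ) : ph (n := n) i j k (gb i) = pw i j ^ k * gb i := by
  simp [ph, gb]

theorem ph_aj (k : ℤ) : ph (n := n) i j k (ga j) =
    (mid g n i j)⁻¹ * (pw i j ^ k * sw i j * pw i j ^ (-k)) * mid g n i j := by
  simp [ph, ga]

theorem ph_bj (h : (i : ℕ) < j) (k : ℤ) : ph (n := n) i j k (gb j) =
    (mid g n i j)⁻¹ * (tw i j * sw i j ^ k * pw i j ^ (-k)) * mid g n i j := by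
  have hji : j ≠ i := by
    rintro rfl
    omega
  simp [ph, gb, hji]

theorem ph_a' {l : Fin g} (h : l ≠ j) (k : ℤ) : ph (n := n) i j k (ga l) = ga l := by
  simp [ph, ga, h]

theorem ph_b' {l : Fin g} (hi : l ≠ i) (hj : l ≠ j) (k : ℤ) : ph (n := n) i j k (gb l) = gb l := by
  simp [ph, gb, hi, hj]

theorem ph_c (l : Fin n) (k : ℤ) : ph (n := n) i j k (gc l) = gc l := by
  simp [ph, gc]

theorem ph_mid (k : ℤ) : ph (n := n) i j k (mid g n i j) = mid g n i j := by
  apply seg_congr (ψ := MonoidHom.id _)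
  intro l h1 h2
  have hli : l ≠ i := by
    rintro rfl
    omega
  have hlj : l ≠ j := by
    rintro rfl
    omega
  exact ⟨ph_a' hlj _, ph_b' hli hlj _⟩

theorem ph_ai (h : (i : ℕ) < j) (k : ℤ) : ph (n := n) i j k (ga i) = ga i := by
  apply ph_a'
  rintro rfl
  omega

theorem ph_sw (k : ℤ) : ph (n := n) i j k (sw i j) = pw i j ^ k * sw i j * pw i j ^ (-k) := by
  have h : ph (n := n) i j k (sw i j) = mid g n i j * ph i j k (ga j) * (mid g n i j)⁻¹ := by
    conv_lhs => rw [sw]
    rw [map_mul, map_mul, map_inv, ph_mid]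
  rw [h, ph_aj]
  group

theorem ph_tw (h : (i : ℕ) < j) (k : ℤ) :
    ph (n := n) i j k (tw i j) = tw i j * sw i j ^ k * pw i j ^ (-k) := by
  have h' : ph (n := n) i j k (tw i j) = mid g n i j * ph i j k (gb j) * (mid g n i j)⁻¹ := by
    conv_lhs => rw [tw]
    rw [map_mul, map_mul, map_inv, ph_mid]
  rw [h', ph_bj h]
  group

theorem ph_pw (h : (i : ℕ) < j) (k : ℤ) : ph (n := n) i j k (pw i j) = pw i j := by
  have h1 : ph (n := n) i j k (pw i j) = ph i j k (gb i) * (ph i j k (ga i))⁻¹ *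
      (ph i j k (gb i))⁻¹ * ph i j k (sw i j) := by
    conv_lhs => rw [pw]
    simp only [map_mul, map_inv]
  rw [h1, ph_bi, ph_ai h, ph_sw]
  have h2 : (gb i : F g n) * (ga i)⁻¹ * (gb i)⁻¹ = pw i j * (sw i j)⁻¹ := by
    rw [pw]
    group
  have h3 : pw i j ^ k * gb i * (ga i)⁻¹ * (pw i j ^ k * gb i)⁻¹ *
      (pw i j ^ k * sw i j * pw i j ^ (-k)) =
      pw i j ^ k * ((gb i : F g n) * (ga i)⁻¹ * (gb i)⁻¹) * sw i j * pw i j ^ (-k) := by
    group
  rw [h3, h2]
  group

theorem ph_comp (h : (i : ℕ) < j) (k l : ℤ) :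
    (ph (n := n) i j k).comp (ph i j l) = ph i j (k + l) := by
  apply hom_ext
  · intro m
    by_cases hm : m = j
    · subst hm
      simp only [MonoidHom.comp_apply, ph_aj, map_mul, map_inv, map_zpow, ph_mid, ph_pw h, ph_sw]
      group
    · simp [ph_a' hm]
  · intro m
    by_cases hm : m = i
    · subst hm
      simp only [MonoidHom.comp_apply, ph_bi, map_mul, map_zpow, ph_pw h]
      group
    · by_cases hm' : m = j
      · subst hm'
        simp only [MonoidHom.comp_apply, ph_bj h, map_mul, map_inv, map_zpow, ph_mid, ph_pw h,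
          ph_sw, ph_tw h]
        have : (pw i m ^ k * sw i m * pw i m ^ (-k) : F g n) ^ l =
            pw i m ^ k * sw i m ^ l * pw i m ^ (-k) := by
          rw [zpow_neg, conj_zpow]
        rw [this]
        group
      · simp [ph_b' hm hm']
  · intro m
    simp [ph_c]

theorem ph_zero (h : (i : ℕ) < j) : ph (n := n) i j 0 = MonoidHom.id _ := by
  apply hom_ext
  · intro m
    by_cases hm : m = j
    · subst hm
      simp only [ph_aj, sw, MonoidHom.id_apply]
      group
    · simp [ph_a' hm]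
  · intro m
    by_cases hm : m = i
    · subst hm
      simp [ph_bi]
    · by_cases hm' : m = j
      · subst hm'
        simp only [ph_bj h, tw, MonoidHom.id_apply]
        group
      · simp [ph_b' hm hm']
  · intro m
    simp [ph_c]

/-- The push as an automorphism. -/
def psh (i j : Fin g) (h : (i : ℕ) < j) (k : ℤ) : MulAut (F g n) := mkAut (ph i j k) (ph i j (-k))
  (by rw [ph_comp h, neg_add_cancel, ph_zero h]) (by rw [ph_comp h, add_neg_cancel, ph_zero h])

theorem psh_apply (h : (i : ℕ) < j) (k : ℤ) (x : F g n) : psh i j h k x = ph i j k x := rfl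

theorem ph_bdry (h : (i : ℕ) < j) (k : ℤ) : ph i j k (bdry g n) = bdry g n := by
  rw [bdry_split2 i j h]
  simp only [map_mul]
  have h1 : ph i j k (seg g n 0 i) = seg g n 0 i := by
    apply seg_congr (ψ := MonoidHom.id _)
    intro l _ hl
    have hli : l ≠ i := by
      rintro rfl
      omega
    have hlj : l ≠ j := by
      rintro rfl
      omega
    exact ⟨ph_a' hlj _, ph_b' hli hlj _⟩
  have h2 : ph i j k (seg g n (j + 1) (g - j - 1)) = seg g n (j + 1) (g - j - 1) := by
    apply seg_congr (ψ := MonoidHom.id _)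
    intro l hl _
    have hli : l ≠ i := by
      rintro rfl
      omega
    have hlj : l ≠ j := by
      rintro rfl
      omega
    exact ⟨ph_a' hlj _, ph_b' hli hlj _⟩
  have h3 : ph i j k (cseg g n 0 n) = cseg g n 0 n := by
    apply cseg_congr (ψ := MonoidHom.id _)
    intro l _ _
    exact ph_c _ _
  have h4 : ph (n := n) i j k (seg g n (i + 1) (j - i - 1)) = seg g n (i + 1) (j - i - 1) :=
    ph_mid k
  rw [h1, h2, h3, h4, map_cm, map_cm, ph_bi, ph_ai h, ph_aj, ph_bj h]
  congr 2
  have e1 : (cm (ga i) (pw i j ^ k * gb i) * seg g n (i + 1) (j - i - 1) *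
      cm ((mid g n i j)⁻¹ * (pw i j ^ k * sw i j * pw i j ^ (-k)) * mid g n i j)
        ((mid g n i j)⁻¹ * (tw i j * sw i j ^ k * pw i j ^ (-k)) * mid g n i j) : F g n) =
      cm (ga i) (pw i j ^ k * gb i) *
      cm (pw i j ^ k * sw i j * pw i j ^ (-k)) (tw i j * sw i j ^ k * pw i j ^ (-k)) *
      mid g n i j := by
    have : seg g n (i + 1) (j - i - 1) = mid g n i j := rfl
    rw [this]
    generalize (pw i j ^ k * sw i j * pw i j ^ (-k) : F g n) = u
    generalize (tw i j * sw i j ^ k * pw i j ^ (-k) : F g n) = v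
    unfold cm
    group
  rw [e1, push_word (ga i) (gb i) (sw i j) (tw i j) (pw i j) k rfl]
  have : seg g n (i + 1) (j - i - 1) = mid g n i j := rfl
  rw [this]
  unfold cm sw tw
  group

theorem psh_mem (h : (i : ℕ) < j) (k : ℤ) : psh i j h k ∈ MCG g n :=
  mem_MCG_of_fix (ph_bdry h k) fun l => by rw [psh_apply, ph_c]

end

/-! ### Pushing a foot of the handle `i` around a marked point -/

/-- The handles and marked points between `i` and the marked point `j`. -/
def midc (g n : ℕ) (i j : ℕ) : F g n := seg g n (i + 1) (g - i - 1) * cseg g n 0 j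

/-- `c j` moved next to the handle `i`. -/
def sc (i : Fin g) (j : Fin n) : F g n := midc g n i j * gc j * (midc g n i j)⁻¹

/-- The curve about which we push. -/
def qw (i : Fin g) (j : Fin n) : F g n := gb i * (ga i)⁻¹ * (gb i)⁻¹ * sc i j

/-- The push. -/
def qh (i : Fin g) (j : Fin n) (k : ℤ) : F g n →* F g n :=
  FreeGroup.lift fun x =>
    if x = Gen.b i then qw i j ^ k * gb i
    else if x = Gen.c j then (midc g n i j)⁻¹ * (qw i j ^ k * sc i j * qw i j ^ (-k)) * midc g n i j
    else FreeGroup.of x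

section

variable {i : Fin g} {j : Fin n}

theorem qh_bi (k : ℤ) : qh i j k (gb i) = qw i j ^ k * gb i := by
  simp [qh, gb]

theorem qh_cj (k : ℤ) : qh i j k (gc j) =
    (midc g n i j)⁻¹ * (qw i j ^ k * sc i j * qw i j ^ (-k)) * midc g n i j := by
  simp [qh, gc]

theorem qh_a (l : Fin g) (k : ℤ) : qh i j k (ga l) = ga l := by
  simp [qh, ga]

theorem qh_b' {l : Fin g} (hi : l ≠ i) (k : ℤ) : qh i j k (gb l) = gb l := by
  simp [qh, gb, hi]

theorem qh_c' {l : Fin n} (hl : l ≠ j) (k : ℤ) : qh i j k (gc l) = gc l := by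
  simp [qh, gc, hl]

theorem qh_mid (k : ℤ) : qh i j k (midc g n i j) = midc g n i j := by
  unfold midc
  rw [map_mul]
  congr 1
  · apply seg_congr (ψ := MonoidHom.id _)
    intro l h1 h2
    have hli : l ≠ i := by
      rintro rfl
      omega
    exact ⟨qh_a _ _, qh_b' hli _⟩
  · apply cseg_congr (ψ := MonoidHom.id _)
    intro l h1 h2
    have hlj : l ≠ j := by
      rintro rfl
      omega
    exact qh_c' hlj _

theorem qh_sc (k : ℤ) : qh i j k (sc i j) = qw i j ^ k * sc i j * qw i j ^ (-k) := by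
  have h : qh i j k (sc i j) = midc g n i j * qh i j k (gc j) * (midc g n i j)⁻¹ := by
    conv_lhs => rw [sc]
    rw [map_mul, map_mul, map_inv, qh_mid]
  rw [h, qh_cj]
  group

theorem qh_qw (k : ℤ) : qh i j k (qw i j) = qw i j := by
  have h1 : qh i j k (qw i j) = qh i j k (gb i) * (qh i j k (ga i))⁻¹ *
      (qh i j k (gb i))⁻¹ * qh i j k (sc i j) := by
    conv_lhs => rw [qw]
    simp only [map_mul, map_inv]
  rw [h1, qh_bi, qh_a, qh_sc]
  have h2 : (gb i : F g n) * (ga i)⁻¹ * (gb i)⁻¹ = qw i j * (sc i j)⁻¹ := by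
    rw [qw]
    group
  have h3 : qw i j ^ k * gb i * (ga i)⁻¹ * (qw i j ^ k * gb i)⁻¹ *
      (qw i j ^ k * sc i j * qw i j ^ (-k)) =
      qw i j ^ k * ((gb i : F g n) * (ga i)⁻¹ * (gb i)⁻¹) * sc i j * qw i j ^ (-k) := by
    group
  rw [h3, h2]
  group

theorem qh_comp (k l : ℤ) : (qh i j k).comp (qh i j l) = qh i j (k + l) := by
  apply hom_ext
  · intro m
    simp [qh_a]
  · intro m
    by_cases hm : m = i
    · subst hm
      simp only [MonoidHom.comp_apply, qh_bi, map_mul, map_zpow, qh_qw]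
      group
    · simp [qh_b' hm]
  · intro m
    by_cases hm : m = j
    · subst hm
      simp only [MonoidHom.comp_apply, qh_cj, map_mul, map_inv, map_zpow, qh_mid, qh_qw, qh_sc]
      group
    · simp [qh_c' hm]

theorem qh_zero : qh i j 0 = MonoidHom.id _ := by
  apply hom_ext
  · intro m
    simp [qh_a]
  · intro m
    by_cases hm : m = i
    · subst hm
      simp [qh_bi]
    · simp [qh_b' hm]
  · intro m
    by_cases hm : m = j
    · subst hm
      simp only [qh_cj, sc, MonoidHom.id_apply]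
      group
    · simp [qh_c' hm]

/-- The push as an automorphism. -/
def qsh (i : Fin g) (j : Fin n) (k : ℤ) : MulAut (F g n) := mkAut (qh i j k) (qh i j (-k))
  (by rw [qh_comp, neg_add_cancel, qh_zero]) (by rw [qh_comp, add_neg_cancel, qh_zero])

theorem qsh_apply (k : ℤ) (x : F g n) : qsh i j k x = qh i j k x := rfl

theorem qh_bdry (k : ℤ) : qh i j k (bdry g n) = bdry g n := by
  rw [bdry_split3 i j]
  simp only [map_mul]
  have h1 : qh i j k (seg g n 0 i) = seg g n 0 i := by
    apply seg_congr (ψ := MonoidHom.id _)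
    intro l _ hl
    have hli : l ≠ i := by
      rintro rfl
      omega
    exact ⟨qh_a _ _, qh_b' hli _⟩
  have h2 : qh i j k (cseg g n (j + 1) (n - j - 1)) = cseg g n (j + 1) (n - j - 1) := by
    apply cseg_congr (ψ := MonoidHom.id _)
    intro l hl _
    have hlj : l ≠ j := by
      rintro rfl
      omega
    exact qh_c' hlj _
  have h4 : qh i j k (seg g n (i + 1) (g - i - 1)) * qh i j k (cseg g n 0 j) =
      midc g n i j := by
    rw [← map_mul]
    exact qh_mid k
  rw [h1, h2, h4, map_cm, qh_bi, qh_a, qh_cj]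
  have h5 : seg g n (i + 1) (g - i - 1) * cseg g n 0 j = midc g n i j := rfl
  rw [h5]
  congr 2
  have e1 : (cm (ga i) (qw i j ^ k * gb i) * midc g n i j *
      ((midc g n i j)⁻¹ * (qw i j ^ k * sc i j * qw i j ^ (-k)) * midc g n i j) : F g n) =
      cm (ga i) (qw i j ^ k * gb i) * (qw i j ^ k * sc i j * qw i j ^ (-k)) * midc g n i j := by
    group
  rw [e1, push_word2 (ga i) (gb i) (sc i j) (qw i j) k rfl]
  unfold sc
  group

theorem qsh_mem (k : ℤ) : qsh i j k ∈ MCG g n := by
  refine mem_MCG_of_fix (qh_bdry k) fun l => ?_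
  rw [qsh_apply]
  by_cases hl : l = j
  · subst hl
    rw [qh_cj]
    have : (midc g n i l)⁻¹ * (qw i l ^ k * sc i l * qw i l ^ (-k)) * midc g n i l =
        ((midc g n i l)⁻¹ * qw i l ^ k * midc g n i l) * gc l *
          ((midc g n i l)⁻¹ * qw i l ^ k * midc g n i l)⁻¹ := by
      unfold sc
      group
    rw [this]
    exact (isConj_iff.mpr ⟨_, rfl⟩).symm
  · rw [qh_c' hl]

end

end Pool.Agent.PW
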