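import Pool.Agent.PW.Solv2

/-!
# MP_26af1b_gt : covers which are central on a handle

Every nonzero rational cohomology class of degree one of a finite branched cover has an infinite
orbit under the mapping class group, if some handle of the base goes to the centre of the deck
group `G` of the Galois closure, and in particular if `G` modulo its centre is solvable of order
with less than `g` prime factors.
-/

namespace Pool.Agent.PW.CentralSolvable

open Pool.Agent.PW

theorem result (g n : ℕ) (K : Subgroup (F g n)) [K.FiniteIndex] (hR : bdry g n ∈ K.normalCore)
    (hK : CentralHandle K ∨
      (Group.IsSolvable (Deck K ⧸ Subgroup.center (Deck K)) ∧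
        (Nat.card (Deck K ⧸ Subgroup.center (Deck K))).primeFactorsList.length < g))
    (f : K → ℚ) (hf : IsClass K f) (h0 : f ≠ 0) : (orbit K f).Infinite := by
  have hc : CentralHandle K := by
    rcases hK with h | ⟨h1, h2⟩
    · exact h
    · exact centralHandle_of_solvable K h1 h2
  exact infinite_of_central hR hc hf h0

end Pool.Agent.PW.CentralSolvable
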