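import Mathlib

/-!
# Finite branched covers of closed surfaces in terms of subgroups of free groups

`F g n` is the fundamental group of the surface of genus `g` with `n` marked points and one more
point removed; `bdry g n` is the loop around the last point, so that the fundamental group of the
surface of genus `g` with the `n` marked points removed is `F g n` modulo `bdry g n`.
-/

namespace Pool.Agent.PW

/-- The generators: `a i`, `b i` for the handles, `c j` for the marked points. -/
inductive Gen (g n : ℕ)
  | a (i : Fin g)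
  | b (i : Fin g)
  | c (j : Fin n)
  deriving DecidableEq

/-- The free group on the generators. -/
abbrev F (g n : ℕ) : Type := FreeGroup (Gen g n)

variable {g n : ℕ}

/-- The generator `a i`. -/
def ga (i : Fin g) : F g n := FreeGroup.of (Gen.a i)

/-- The generator `b i`. -/
def gb (i : Fin g) : F g n := FreeGroup.of (Gen.b i)

/-- The generator `c j`, the loop around the marked point `j`. -/
def gc (j : Fin n) : F g n := FreeGroup.of (Gen.c j)

/-- The product of the commutators `[a i, b i]` and of the `c j`. -/
def bdry (g n : ℕ) : F g n :=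
  (List.ofFn fun i : Fin g => (ga i * gb i * (ga i)⁻¹ * (gb i)⁻¹ : F g n)).prod *
    (List.ofFn fun j : Fin n => (gc j : F g n)).prod

/-- The mapping classes: the automorphisms which keep the conjugacy classes of `bdry` and of each
`c j`. -/
def MCG (g n : ℕ) : Subgroup (MulAut (F g n)) where
  carrier := {φ | IsConj (φ (bdry g n)) (bdry g n) ∧ ∀ j, IsConj (φ (gc j)) (gc j : F g n)}
  one_mem' := ⟨IsConj.refl _, fun _ => IsConj.refl _⟩
  mul_mem' := by
    rintro φ ψ ⟨h1, h2⟩ ⟨h3, h4⟩
    refine ⟨?_, fun j => ?_⟩
    · exact IsConj.trans (MonoidHom.map_isConj φ.toMonoidHom h3) h1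
    · exact IsConj.trans (MonoidHom.map_isConj φ.toMonoidHom (h4 j)) (h2 j)
  inv_mem' := by
    rintro φ ⟨h1, h2⟩
    refine ⟨?_, fun j => ?_⟩
    · have := MonoidHom.map_isConj (φ⁻¹).toMonoidHom h1
      have h3 : φ⁻¹ (φ (bdry g n)) = bdry g n := by simp
      have h4 : IsConj (φ⁻¹ (φ (bdry g n))) (φ⁻¹ (bdry g n)) := this
      rw [h3] at h4
      exact h4.symm
    · have := MonoidHom.map_isConj (φ⁻¹).toMonoidHom (h2 j)
      have h3 : φ⁻¹ (φ (gc j)) = (gc j : F g n) := by simp
      have h4 : IsConj (φ⁻¹ (φ (gc j))) (φ⁻¹ (gc j : F g n)) := this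
      rw [h3] at h4
      exact h4.symm

/-- `f` is a rational cohomology class of degree one of the closed surface which covers the closed
surface of genus `g` and belongs to the subgroup `K`. -/
structure IsClass (K : Subgroup (F g n)) (f : K → ℚ) : Prop where
  add : ∀ x y : K, f (x * y) = f x + f y
  bdry : ∀ x : K, IsConj (x : F g n) (bdry g n) → f x = 0
  marked : ∀ (x : K) (j : Fin n) (m : ℕ), IsConj (x : F g n) (gc j ^ m) → f x = 0

/-- The orbit of `f` under the mapping classes which keep `K`. -/
def orbit (K : Subgroup (F g n)) (f : K → ℚ) : Set (K → ℚ) :=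
  {f' | ∃ φ ∈ MCG g n, ∃ h : ∀ x, x ∈ K ↔ φ x ∈ K, ∀ x : K, f' x = f ⟨φ x, (h x).1 x.2⟩}

/-- The deck group of the Galois closure of the cover. -/
abbrev Deck (K : Subgroup (F g n)) : Type := F g n ⧸ K.normalCore

/-- Some handle goes to the centre of the deck group. -/
def CentralHandle (K : Subgroup (F g n)) : Prop :=
  ∃ φ ∈ MCG g n, ∃ h : 0 < g,
    ((φ (ga ⟨0, h⟩) : F g n) : Deck K) ∈ Subgroup.center (Deck K) ∧
    ((φ (gb ⟨0, h⟩) : F g n) : Deck K) ∈ Subgroup.center (Deck K)

end Pool.Agent.PW
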