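import Pool.Agent.PW.Transfer

/-!
# Classes with finite orbit vanish on simple curves
-/

namespace Pool.Agent.PW

variable {g n : ℕ}

/-- What we use of a class with finite orbit. -/
structure Good (N : Subgroup (F g n)) (f : F g n → ℚ) : Prop where
  normal : N.Normal
  fin : N.FiniteIndex
  add : AddOn N f
  bdryN : bdry g n ∈ N
  bdry : ∀ w, f (w * bdry g n * w⁻¹) = 0
  marked : ∀ w j m, gc j ^ m ∈ N → f (w * gc j ^ m * w⁻¹) = 0
  stab : ∀ T ∈ MCG g n, ∀ L : ℕ, 0 < L → (∀ x, (T ^ L) x * x⁻¹ ∈ N) →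
    ∃ M : ℕ, 0 < M ∧ L ∣ M ∧ ∀ x ∈ N, f ((T ^ M) x) = f x

variable {N : Subgroup (F g n)} {f : F g n → ℚ}

theorem Good.comp (h : Good N f) {φ : MulAut (F g n)} (hφ : φ ∈ MCG g n) :
    Good (N.comap φ.toMonoidHom) (fun x => f (φ x)) := by
  have hN := h.normal
  have hF := h.fin
  have mem : ∀ x, x ∈ N.comap φ.toMonoidHom ↔ φ x ∈ N := fun x => Iff.rfl
  have hfin : (N.comap φ.toMonoidHom).FiniteIndex := by
    refine ⟨?_⟩
    rw [Subgroup.index_comap_of_surjective N (f := φ.toMonoidHom) φ.surjective]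
    exact hF.index_ne_zero
  refine ⟨hN.comap _, hfin, ?_, ?_, ?_, ?_, ?_⟩
  · intro x hx y hy
    show f (φ (x * y)) = f (φ x) + f (φ y)
    rw [map_mul]
    exact h.add _ hx _ hy
  · obtain ⟨v, hv⟩ := isConj_iff.mp hφ.1.symm
    rw [mem, ← hv]
    exact hN.conj_mem _ h.bdryN v
  · intro w
    obtain ⟨v, hv⟩ := isConj_iff.mp hφ.1.symm
    have e : φ (w * PW.bdry g n * w⁻¹) = (φ w * v) * PW.bdry g n * (φ w * v)⁻¹ := by
      rw [map_mul, map_mul, map_inv, ← hv]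
      group
    rw [e]
    exact h.bdry _
  · intro w j m hm
    obtain ⟨v, hv⟩ := isConj_iff.mp (hφ.2 j).symm
    have e1 : φ (gc j ^ m) = v * gc j ^ m * v⁻¹ := by
      rw [map_pow, ← hv, conj_pow]
    have e : φ (w * gc j ^ m * w⁻¹) = (φ w * v) * gc j ^ m * (φ w * v)⁻¹ := by
      rw [map_mul, map_mul, map_inv, e1]
      group
    rw [e]
    apply h.marked
    rw [mem, e1] at hm
    have := hN.conj_mem _ hm v⁻¹
    have e2 : v⁻¹ * (v * gc j ^ m * v⁻¹) * v⁻¹⁻¹ = gc j ^ m := by group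
    rwa [e2] at this
  · intro T hT L hL hx
    have hS : φ * T * φ⁻¹ ∈ MCG g n :=
      (MCG g n).mul_mem ((MCG g n).mul_mem hφ hT) ((MCG g n).inv_mem hφ)
    have hpow : ∀ (k : ℕ) (x : F g n), ((φ * T * φ⁻¹) ^ k) (φ x) = φ ((T ^ k) x) := by
      intro k x
      rw [conj_pow]
      simp
    obtain ⟨M, hM, hLM, hM2⟩ := h.stab _ hS L hL (by
      intro y
      have := hx (φ⁻¹ y)
      rw [mem, map_mul, map_inv] at this
      have e1 : φ (φ⁻¹ y) = y := by simp
      have e2 := hpow L (φ⁻¹ y)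
      rw [e1] at e2 this
      rw [e2]
      exact this)
    refine ⟨M, hM, hLM, fun x hx => ?_⟩
    rw [← hpow]
    exact hM2 _ hx

/-- Homomorphisms which agree modulo `N` on the generators. -/
theorem mod_of_gens (hN : N.Normal) {τ : F g n →* F g n} (ha : ∀ i, τ (ga i) * (ga i)⁻¹ ∈ N)
    (hb : ∀ i, τ (gb i) * (gb i)⁻¹ ∈ N) (hc : ∀ j, τ (gc j) * (gc j)⁻¹ ∈ N) (x : F g n) :
    τ x * x⁻¹ ∈ N := by
  have key : ∀ y, τ y * y⁻¹ ∈ N ↔ (QuotientGroup.mk' N) (τ y) = QuotientGroup.mk' N y := by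
    intro y
    rw [QuotientGroup.mk'_apply, QuotientGroup.mk'_apply, QuotientGroup.eq]
    constructor
    · intro h
      have := hN.conj_mem _ (N.inv_mem h) y⁻¹
      have e : y⁻¹ * (τ y * y⁻¹)⁻¹ * y⁻¹⁻¹ = (τ y)⁻¹ * y := by group
      rwa [e] at this
    · intro h
      have := N.inv_mem (hN.conj_mem _ h y)
      have e : (y * ((τ y)⁻¹ * y) * y⁻¹)⁻¹ = τ y * y⁻¹ := by group
      rwa [e] at this
  have h : (QuotientGroup.mk' N).comp τ = QuotientGroup.mk' N := by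
    apply hom_ext
    · intro i
      exact (key _).mp (ha i)
    · intro i
      exact (key _).mp (hb i)
    · intro j
      exact (key _).mp (hc j)
  rw [key]
  exact DFunLike.congr_fun h x

/-- An exponent of the quotient. -/
theorem exists_exp (hN : N.Normal) (hF : N.FiniteIndex) : ∃ L : ℕ, 0 < L ∧ ∀ x, x ^ L ∈ N := by
  refine ⟨N.index, Nat.pos_of_ne_zero hF.index_ne_zero, fun x => ?_⟩
  exact N.pow_index_mem x

theorem seg_mem' {E : Subgroup (F g n)} {s m : ℕ}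
    (h : ∀ i : Fin g, s ≤ i → (i : ℕ) < s + m → cm (ga i) (gb i) ∈ E) : seg g n s m ∈ E := by
  unfold seg
  apply Subgroup.list_prod_mem
  intro x hx
  rw [List.mem_map] at hx
  obtain ⟨k, hk, rfl⟩ := hx
  rw [List.mem_range'_1] at hk
  by_cases hkg : k < g
  · simp only [hd, hkg, dif_pos]
    exact h ⟨k, hkg⟩ hk.1 hk.2
  · simp only [hd, hkg, dif_neg, not_false_iff]
    exact E.one_mem

/-- The transfer vanishes on the first handle. -/
theorem Good.cm_mem (h : Good N f) [hN : N.Normal] [Fintype (F g n ⧸ N)] {z : Fin g}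
    (hz : (z : ℕ) = 0) {τ : F g n →* F g n} (hτ : Fixes N f τ) (hR : τ (PW.bdry g n) = PW.bdry g n)
    (ha : ∀ i, i ≠ z → τ (ga i) = ga i) (hb : ∀ i, i ≠ z → τ (gb i) = gb i)
    (hc : ∀ j, τ (gc j) = gc j) : cm (ga z) (gb z) ∈ trk h.add (potq N f τ) := by
  have hbd := bdry_split (n := n) z
  rw [hz, seg_zero, one_mul] at hbd
  have h1 : PW.bdry g n ∈ trk h.add (potq N f τ) := by
    refine ⟨mem_kp_potq h.add hτ hR, ?_⟩
    rw [tr_mem h.bdryN]
    exact Finset.sum_eq_zero fun q _ => by rw [h.bdry, mul_zero]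
  have h2 : seg g n (0 + 1) (g - 0 - 1) ∈ trk h.add (potq N f τ) := by
    apply seg_mem'
    intro i hi _
    have hne : i ≠ z := by
      rintro rfl
      omega
    exact cm_mem_trk h.add (mem_kp_potq h.add hτ (ha i hne)) (mem_kp_potq h.add hτ (hb i hne))
  have h3 : cseg g n 0 n ∈ trk h.add (potq N f τ) := by
    apply cseg_mem
    intro j _ _
    obtain ⟨L, hL, hLN⟩ := exists_exp hN h.fin
    exact mem_trk_of_pow h.add (mem_kp_potq h.add hτ (hc j)) hL (hLN _)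
      fun w => h.marked w j L (hLN _)
  have e : cm (ga z) (gb z) = PW.bdry g n *
      (seg g n (0 + 1) (g - 0 - 1) * cseg g n 0 n)⁻¹ := by
    rw [hbd]
    group
  rw [e]
  exact (trk h.add (potq N f τ)).mul_mem h1
    ((trk h.add (potq N f τ)).inv_mem ((trk h.add (potq N f τ)).mul_mem h2 h3))

theorem zero_of_pow {N : Subgroup (F g n)} {f : F g n → ℚ} (hN : N.Normal) (ha : AddOn N f)
    {x : F g n} {M m : ℕ} (hM : 0 < M) (hm : x ^ m ∈ N)
    (h : ∀ w, f (w * x ^ M * w⁻¹) = 0) (hxM : x ^ M ∈ N) (w : F g n) :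
    f (w * x ^ m * w⁻¹) = 0 := by
  have h1 : w * x ^ m * w⁻¹ ∈ N := hN.conj_mem _ hm w
  have h2 : w * x ^ M * w⁻¹ ∈ N := hN.conj_mem _ hxM w
  have h3 := ha.pow h1 M
  have h4 := ha.pow h2 m
  rw [h w, mul_zero] at h4
  have e : (w * x ^ m * w⁻¹) ^ M = (w * x ^ M * w⁻¹) ^ m := by
    rw [conj_pow, conj_pow, ← pow_mul, ← pow_mul, mul_comm]
  rw [e, h4] at h3
  have h5 : (M : ℚ) ≠ 0 := by exact_mod_cast hM.ne'
  rcases mul_eq_zero.mp h3.symm with h6 | h6
  · exact absurd h6 h5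
  · exact h6

/-- A class with finite orbit vanishes on the powers of `b 0`. -/
theorem Good.kill_b (h : Good N f) {z : Fin g} (hz : (z : ℕ) = 0) {m : ℕ} (hm : gb z ^ m ∈ N)
    (w : F g n) : f (w * gb z ^ m * w⁻¹) = 0 := by
  have hN := h.normal
  have hF := h.fin
  have : Fintype (F g n ⧸ N) := Fintype.ofFinite _
  obtain ⟨L, hL, hLN⟩ := exists_exp hN hF
  have hmod : ∀ K : ℕ, gb z ^ K ∈ N → ∀ x : F g n, e2h z (K : ℤ) x * x⁻¹ ∈ N := by
    intro K hK
    apply mod_of_gens hN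
    · intro i
      by_cases hi : i = z
      · subst hi
        rw [e2h_a]
        have e : (ga i * gb i ^ (K : ℤ) * (ga i)⁻¹ : F g n) = ga i * gb i ^ K * (ga i)⁻¹ := by
          rw [zpow_natCast]
        rw [e]
        exact hN.conj_mem _ hK _
      · rw [e2h_a' hi, mul_inv_cancel]
        exact N.one_mem
    · intro i
      rw [e2h_b, mul_inv_cancel]
      exact N.one_mem
    · intro i
      rw [e2h_c, mul_inv_cancel]
      exact N.one_mem
  obtain ⟨M, hM, hLM, hM2⟩ := h.stab (e2 z 1) (e2_mem z 1) L hL (by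
    intro x
    rw [e2_pow, e2_apply, one_mul]
    exact hmod L (hLN _) x)
  have hbM : gb z ^ M ∈ N := by
    obtain ⟨d, rfl⟩ := hLM
    rw [pow_mul]
    exact N.pow_mem (hLN _) d
  have hfix : Fixes N f (e2h z (M : ℤ)) := by
    refine ⟨hmod M hbM, fun x hx => ?_⟩
    have := hM2 x hx
    rwa [e2_pow, e2_apply, one_mul] at this
  refine zero_of_pow hN h.add hM hm (fun w => ?_) hbM w
  refine kill_one h.add hfix (a := ga z) hbM ?_ (e2h_b _ _ _) ?_ w
  · rw [e2h_a, zpow_natCast]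
  · exact h.cm_mem hz hfix (e2h_bdry z _) (fun i hi => e2h_a' hi _) (fun i _ => e2h_b _ _ _)
      (fun j => e2h_c _ _ _)

/-- A class with finite orbit vanishes on the powers of the boundary of the first handle. -/
theorem Good.kill_d (h : Good N f) {z : Fin g} (hz : (z : ℕ) = 0) {m : ℕ}
    (hm : cm (ga z) (gb z) ^ m ∈ N) (w : F g n) : f (w * cm (ga z) (gb z) ^ m * w⁻¹) = 0 := by
  have hN := h.normal
  have hF := h.fin
  have : Fintype (F g n ⧸ N) := Fintype.ofFinite _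
  obtain ⟨L, hL, hLN⟩ := exists_exp hN hF
  have hmod : ∀ K : ℕ, cm (ga z) (gb z) ^ K ∈ N → ∀ x : F g n, dh z (K : ℤ) x * x⁻¹ ∈ N := by
    intro K hK
    have key : ∀ y : F g n, cm (ga z) (gb z) ^ (K : ℤ) * y * cm (ga z) (gb z) ^ (-(K : ℤ)) * y⁻¹
        ∈ N := by
      intro y
      have e : cm (ga z) (gb z) ^ (K : ℤ) * y * cm (ga z) (gb z) ^ (-(K : ℤ)) * y⁻¹ =
          cm (ga z) (gb z) ^ K * (y * (cm (ga z) (gb z) ^ K)⁻¹ * y⁻¹) := by
        rw [zpow_neg, zpow_natCast]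
        group
      rw [e]
      exact N.mul_mem hK (hN.conj_mem _ (N.inv_mem hK) _)
    apply mod_of_gens hN
    · intro i
      by_cases hi : i = z
      · subst hi
        rw [dh_a]
        exact key _
      · rw [dh_a' hi, mul_inv_cancel]
        exact N.one_mem
    · intro i
      by_cases hi : i = z
      · subst hi
        rw [dh_b]
        exact key _
      · rw [dh_b' hi, mul_inv_cancel]
        exact N.one_mem
    · intro i
      rw [dh_c, mul_inv_cancel]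
      exact N.one_mem
  obtain ⟨M, hM, hLM, hM2⟩ := h.stab (dt z 1) (dt_mem z 1) L hL (by
    intro x
    rw [dt_pow, dt_apply, one_mul]
    exact hmod L (hLN _) x)
  have hbM : cm (ga z) (gb z) ^ M ∈ N := by
    obtain ⟨d, rfl⟩ := hLM
    rw [pow_mul]
    exact N.pow_mem (hLN _) d
  have hfix : Fixes N f (dh z (M : ℤ)) := by
    refine ⟨hmod M hbM, fun x hx => ?_⟩
    have := hM2 x hx
    rwa [dt_pow, dt_apply, one_mul] at this
  refine zero_of_pow hN h.add hM hm (fun w => ?_) hbM w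
  refine kill_two h.add hfix hbM ?_ ?_ ?_ w
  · rw [dh_a, zpow_neg, zpow_natCast]
  · rw [dh_b, zpow_neg, zpow_natCast]
  · exact h.cm_mem hz hfix (dh_bdry z _) (fun i hi => dh_a' hi _) (fun i hi => dh_b' hi _)
      (fun j => dh_c _ _ _)

/-- The same for all the images under mapping classes. -/
theorem Good.kill_b' (h : Good N f) {z : Fin g} (hz : (z : ℕ) = 0) {φ : MulAut (F g n)}
    (hφ : φ ∈ MCG g n) {m : ℕ} (hm : φ (gb z) ^ m ∈ N) (w : F g n) :
    f (w * φ (gb z) ^ m * w⁻¹) = 0 := by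
  have := (h.comp hφ).kill_b hz (m := m) (by
    show φ (gb z ^ m) ∈ N
    rwa [map_pow]) (φ⁻¹ w)
  have e : φ (φ⁻¹ w * gb z ^ m * (φ⁻¹ w)⁻¹) = w * φ (gb z) ^ m * w⁻¹ := by
    simp
  rwa [e] at this

theorem Good.kill_d' (h : Good N f) {z : Fin g} (hz : (z : ℕ) = 0) {φ : MulAut (F g n)}
    (hφ : φ ∈ MCG g n) {m : ℕ} (hm : cm (φ (ga z)) (φ (gb z)) ^ m ∈ N) (w : F g n) :
    f (w * cm (φ (ga z)) (φ (gb z)) ^ m * w⁻¹) = 0 := by
  have e0 : φ (cm (ga z) (gb z)) = cm (φ (ga z)) (φ (gb z)) := by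
    simp [cm]
  have := (h.comp hφ).kill_d hz (m := m) (by
    show φ (cm (ga z) (gb z) ^ m) ∈ N
    rwa [map_pow, e0]) (φ⁻¹ w)
  have e : φ (φ⁻¹ w * cm (ga z) (gb z) ^ m * (φ⁻¹ w)⁻¹) =
      w * cm (φ (ga z)) (φ (gb z)) ^ m * w⁻¹ := by
    rw [map_mul, map_mul, map_inv, map_pow, e0]
    simp
  rwa [e] at this

end Pool.Agent.PW
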