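import Pool.Agent.PW.Orbit

/-!
# Finding a central handle
-/

namespace Pool.Agent.PW

variable {g n : ℕ}

/-! ### Elementary operations on pairs -/

section Pairs

variable {p : ℕ}

/-- One operation on the pairs with index less than `h`. -/
def Op (h : ℕ) (v v' : Fin g → ZMod p × ZMod p) : Prop :=
  (∃ i : Fin g, (i : ℕ) < h ∧ ∃ k : ℤ,
    v' = Function.update v i ((v i).1, (v i).2 + k * (v i).1)) ∨
  (∃ i : Fin g, (i : ℕ) < h ∧ ∃ k : ℤ,
    v' = Function.update v i ((v i).1 + k * (v i).2, (v i).2)) ∨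
  (∃ i j : Fin g, (i : ℕ) < j ∧ (j : ℕ) < h ∧ ∃ k : ℤ,
    v' = Function.update (Function.update v i ((v i).1, (v i).2 + k * ((v j).1 - (v i).1))) j
      ((v j).1, (v j).2 + k * (v i).1))

variable [Fact p.Prime]

/-- Make the first entry nonzero. -/
theorem op_ne {h : ℕ} (v : Fin g → ZMod p × ZMod p) (i : Fin g) (hi : (i : ℕ) < h)
    (hv : v i ≠ 0) : ∃ v', Relation.ReflTransGen (Op h) v v' ∧ (v' i).1 ≠ 0 ∧
      ∀ l, l ≠ i → v' l = v l := by
  by_cases h1 : (v i).1 = 0
  · refine ⟨Function.update v i ((v i).1 + (1 : ℤ) * (v i).2, (v i).2),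
      Relation.ReflTransGen.single (Or.inr (Or.inl ⟨i, hi, 1, rfl⟩)), ?_, ?_⟩
    · rw [Function.update_self, h1]
      simp only [Int.cast_one, one_mul, zero_add]
      intro h2
      exact hv (Prod.ext h1 h2)
    · intro l hl
      rw [Function.update_of_ne hl]
  · exact ⟨v, Relation.ReflTransGen.refl, h1, fun _ _ => rfl⟩

/-- Make the first entry zero. -/
theorem op_zero {h : ℕ} (v : Fin g → ZMod p × ZMod p) (i : Fin g) (hi : (i : ℕ) < h) :
    ∃ v', Relation.ReflTransGen (Op h) v v' ∧ (v' i).1 = 0 ∧ ∀ l, l ≠ i → v' l = v l := by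
  have key : ∀ v : Fin g → ZMod p × ZMod p, (v i).2 ≠ 0 →
      ∃ v', Relation.ReflTransGen (Op h) v v' ∧ (v' i).1 = 0 ∧ ∀ l, l ≠ i → v' l = v l := by
    intro v hv
    obtain ⟨k, hk⟩ := ZMod.intCast_surjective (-((v i).1 / (v i).2))
    refine ⟨Function.update v i ((v i).1 + (k : ℤ) * (v i).2, (v i).2),
      Relation.ReflTransGen.single (Or.inr (Or.inl ⟨i, hi, k, rfl⟩)), ?_, ?_⟩
    · rw [Function.update_self]
      simp only
      rw [hk]
      field_simp
      ring
    · intro l hl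
      rw [Function.update_of_ne hl]
  by_cases h1 : (v i).1 = 0
  · exact ⟨v, Relation.ReflTransGen.refl, h1, fun _ _ => rfl⟩
  · by_cases h2 : (v i).2 = 0
    · have hstep : Op h v (Function.update v i ((v i).1, (v i).2 + (1 : ℤ) * (v i).1)) :=
        Or.inl ⟨i, hi, 1, rfl⟩
      obtain ⟨v', h3, h4, h5⟩ := key (Function.update v i ((v i).1, (v i).2 + (1 : ℤ) * (v i).1)) (by
        rw [Function.update_self, h2]
        simpa using h1)
      refine ⟨v', Relation.ReflTransGen.head hstep h3, h4, fun l hl => ?_⟩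
      rw [h5 l hl, Function.update_of_ne hl]
    · exact key v h2

/-- Clear the pair `i` at the expense of the pair `j`. -/
theorem op_clear {h : ℕ} (v : Fin g → ZMod p × ZMod p) (i j : Fin g) (hij : (i : ℕ) < j)
    (hj : (j : ℕ) < h) : ∃ v', Relation.ReflTransGen (Op h) v v' ∧ v' i = 0 ∧
      ∀ l, l ≠ i → l ≠ j → v' l = v l := by
  have hi : (i : ℕ) < h := lt_trans hij hj
  have hne : i ≠ j := by
    rintro rfl
    exact lt_irrefl _ hij
  -- the case in which the pair `j` is not zero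
  have key : ∀ v : Fin g → ZMod p × ZMod p, v j ≠ 0 →
      ∃ v', Relation.ReflTransGen (Op h) v v' ∧ v' i = 0 ∧ ∀ l, l ≠ i → l ≠ j → v' l = v l := by
    intro v hv
    obtain ⟨v1, a1, a2, a3⟩ := op_ne v j hj hv
    obtain ⟨v2, b1, b2, b3⟩ := op_zero v1 i hi
    have hj2 : (v2 j).1 ≠ 0 := by
      rw [b3 j hne.symm]
      exact a2
    obtain ⟨k, hk⟩ := ZMod.intCast_surjective (-((v2 i).2 / (v2 j).1))
    have hstep : Op h v2 (Function.update
        (Function.update v2 i ((v2 i).1, (v2 i).2 + (k : ℤ) * ((v2 j).1 - (v2 i).1))) j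
        ((v2 j).1, (v2 j).2 + (k : ℤ) * (v2 i).1)) := Or.inr (Or.inr ⟨i, j, hij, hj, k, rfl⟩)
    refine ⟨_, (a1.trans b1).tail hstep, ?_, ?_⟩
    · rw [Function.update_of_ne hne, Function.update_self, b2, hk]
      refine Prod.ext rfl ?_
      simp only [Prod.snd_zero]
      field_simp
      ring
    · intro l hl1 hl2
      rw [Function.update_of_ne hl2, Function.update_of_ne hl1, b3 l hl1, a3 l hl2]
  by_cases hvi : v i = 0
  · exact ⟨v, Relation.ReflTransGen.refl, hvi, fun _ _ _ => rfl⟩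
  · by_cases hvj : v j = 0
    · obtain ⟨v1, a1, a2, a3⟩ := op_ne v i hi hvi
      have hstep : Op h v1 (Function.update
          (Function.update v1 i ((v1 i).1, (v1 i).2 + (1 : ℤ) * ((v1 j).1 - (v1 i).1))) j
          ((v1 j).1, (v1 j).2 + (1 : ℤ) * (v1 i).1)) := Or.inr (Or.inr ⟨i, j, hij, hj, 1, rfl⟩)
      obtain ⟨v', c1, c2, c3⟩ := key _ (show Function.update
          (Function.update v1 i ((v1 i).1, (v1 i).2 + (1 : ℤ) * ((v1 j).1 - (v1 i).1))) j
          ((v1 j).1, (v1 j).2 + (1 : ℤ) * (v1 i).1) j ≠ 0 by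
        rw [Function.update_self, a3 j hne.symm, hvj]
        intro h1
        have h2 := congrArg Prod.snd h1
        simp at h2
        exact a2 h2)
      refine ⟨v', (a1.tail hstep).trans c1, c2, fun l hl1 hl2 => ?_⟩
      rw [c3 l hl1 hl2, Function.update_of_ne hl2, Function.update_of_ne hl1, a3 l hl1]
    · exact key v hvj

/-- Clear all the pairs but the last one. -/
theorem op_all {h : ℕ} (v : Fin g → ZMod p × ZMod p) (j : Fin g) (hj : (j : ℕ) < h) (t : ℕ)
    (ht : t ≤ j) : ∃ v', Relation.ReflTransGen (Op h) v v' ∧ ∀ l : Fin g, (l : ℕ) < t → v' l = 0 := by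
  induction t with
  | zero => exact ⟨v, Relation.ReflTransGen.refl, fun l hl => absurd hl (Nat.not_lt_zero _)⟩
  | succ t ih =>
    obtain ⟨v1, a1, a2⟩ := ih (by omega)
    obtain ⟨v2, b1, b2, b3⟩ := op_clear v1 ⟨t, by omega⟩ j (by simp only; omega) hj
    refine ⟨v2, a1.trans b1, fun l hl => ?_⟩
    by_cases hlt : (l : ℕ) = t
    · have : l = ⟨t, by omega⟩ := Fin.ext hlt
      rw [this]
      exact b2
    · rw [b3 l (fun h => hlt (by rw [h])) (fun h => by rw [h] at hl; omega)]
      exact a2 l (by omega)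

end Pairs

/-! ### Realising the operations -/

section Real

variable {Q : Type*} [Group Q]

/-- The handles with index less than `h` go to `H`. -/
def Inv (h : ℕ) (H : Subgroup Q) (ρ : F g n →* Q) : Prop :=
  ∀ i : Fin g, (i : ℕ) < h → ρ (ga i) ∈ H ∧ ρ (gb i) ∈ H

/-- A character of `H` with kernel `M`. -/
structure Chr (H M : Subgroup Q) (p : ℕ) (X : Q → ZMod p) : Prop where
  mul : ∀ x ∈ H, ∀ y ∈ H, X (x * y) = X x + X y
  ker : ∀ x ∈ H, X x = 0 ↔ x ∈ M

variable {H M : Subgroup Q} {p : ℕ} {X : Q → ZMod p}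

theorem Chr.one (hX : Chr H M p X) : X 1 = 0 := by
  have := hX.mul 1 H.one_mem 1 H.one_mem
  rw [mul_one] at this
  exact left_eq_add.mp this

theorem Chr.inv (hX : Chr H M p X) {x : Q} (hx : x ∈ H) : X x⁻¹ = -X x := by
  have := hX.mul x hx x⁻¹ (H.inv_mem hx)
  rw [mul_inv_cancel, hX.one] at this
  exact (neg_eq_of_add_eq_zero_right this.symm).symm

theorem Chr.pow (hX : Chr H M p X) {x : Q} (hx : x ∈ H) (k : ℕ) : X (x ^ k) = k * X x := by
  induction k with
  | zero => simp [hX.one]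
  | succ k ih =>
    rw [pow_succ, hX.mul _ (H.pow_mem hx k) _ hx, ih]
    push_cast
    ring

theorem Chr.zpow (hX : Chr H M p X) {x : Q} (hx : x ∈ H) (k : ℤ) : X (x ^ k) = k * X x := by
  cases k with
  | ofNat k =>
    simp only [Int.ofNat_eq_natCast, zpow_natCast, Int.cast_natCast]
    exact hX.pow hx k
  | negSucc k =>
    rw [zpow_negSucc, hX.inv (H.pow_mem hx _), hX.pow hx]
    push_cast
    ring

theorem Chr.conj (hX : Chr H M p X) {w x : Q} (hw : w ∈ H) (hx : x ∈ H) :
    X (w * x * w⁻¹) = X x := by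
  rw [hX.mul _ (H.mul_mem hw hx) _ (H.inv_mem hw), hX.mul _ hw _ hx, hX.inv hw]
  ring

theorem Chr.conj' (hX : Chr H M p X) {w x : Q} (hw : w ∈ H) (hx : x ∈ H) :
    X (w⁻¹ * x * w) = X x := by
  rw [hX.mul _ (H.mul_mem (H.inv_mem hw) hx) _ hw, hX.mul _ (H.inv_mem hw) _ hx, hX.inv hw]
  ring

/-- The values of the character on the handles. -/
def vals (X : Q → ZMod p) (ρ : F g n →* Q) : Fin g → ZMod p × ZMod p :=
  fun i => (X (ρ (ga i)), X (ρ (gb i)))

theorem real_op (hX : Chr H M p X) {h : ℕ} {ρ : F g n →* Q} (hI : Inv h H ρ)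
    {v' : Fin g → ZMod p × ZMod p} (hv : Op h (vals X ρ) v') :
    ∃ φ ∈ MCG g n, Inv h H (ρ.comp (MulEquiv.toMonoidHom φ)) ∧
      vals X (ρ.comp (MulEquiv.toMonoidHom φ)) = v' := by
  rcases hv with ⟨i, hi, k, rfl⟩ | ⟨i, hi, k, rfl⟩ | ⟨i, j, hij, hj, k, rfl⟩
  · obtain ⟨ha, hb⟩ := hI i hi
    refine ⟨e1 i k, e1_mem i k, fun l hl => ?_, ?_⟩
    · show ρ (e1h i k (ga l)) ∈ H ∧ ρ (e1h i k (gb l)) ∈ H
      rw [e1h_a]
      refine ⟨(hI l hl).1, ?_⟩
      by_cases hli : l = i
      · subst hli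
        rw [e1h_b, map_mul, map_zpow]
        exact H.mul_mem hb (H.zpow_mem ha k)
      · rw [e1h_b' hli]
        exact (hI l hl).2
    · funext l
      show (X (ρ (e1h i k (ga l))), X (ρ (e1h i k (gb l)))) = _
      by_cases hli : l = i
      · subst hli
        rw [Function.update_self, e1h_a, e1h_b, map_mul, map_zpow,
          hX.mul _ hb _ (H.zpow_mem ha k), hX.zpow ha]
        rfl
      · rw [Function.update_of_ne hli, e1h_a, e1h_b' hli]
        rfl
  · obtain ⟨ha, hb⟩ := hI i hi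
    refine ⟨e2 i k, e2_mem i k, fun l hl => ?_, ?_⟩
    · show ρ (e2h i k (ga l)) ∈ H ∧ ρ (e2h i k (gb l)) ∈ H
      rw [e2h_b]
      refine ⟨?_, (hI l hl).2⟩
      by_cases hli : l = i
      · subst hli
        rw [e2h_a, map_mul, map_zpow]
        exact H.mul_mem ha (H.zpow_mem hb k)
      · rw [e2h_a' hli]
        exact (hI l hl).1
    · funext l
      show (X (ρ (e2h i k (ga l))), X (ρ (e2h i k (gb l)))) = _
      by_cases hli : l = i
      · subst hli
        rw [Function.update_self, e2h_b, e2h_a, map_mul, map_zpow,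
          hX.mul _ ha _ (H.zpow_mem hb k), hX.zpow hb]
        rfl
      · rw [Function.update_of_ne hli, e2h_b, e2h_a' hli]
        rfl
  · have hi : (i : ℕ) < h := lt_trans hij hj
    obtain ⟨hai, hbi⟩ := hI i hi
    obtain ⟨haj, hbj⟩ := hI j hj
    have hne : i ≠ j := by
      rintro rfl
      exact lt_irrefl _ hij
    have hmid : ρ (mid g n i j) ∈ H := by
      have : mid g n i j ∈ H.comap ρ := by
        apply seg_mem
        intro l h1 h2
        exact hI l (by omega)
      exact this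
    set m := ρ (mid g n i j) with hm
    have hsw : ρ (sw i j) = m * ρ (ga j) * m⁻¹ := by
      rw [sw, map_mul, map_mul, map_inv]
    have htw : ρ (tw i j) = m * ρ (gb j) * m⁻¹ := by
      rw [tw, map_mul, map_mul, map_inv]
    have hswH : ρ (sw i j) ∈ H := by
      rw [hsw]
      exact H.mul_mem (H.mul_mem hmid haj) (H.inv_mem hmid)
    have htwH : ρ (tw i j) ∈ H := by
      rw [htw]
      exact H.mul_mem (H.mul_mem hmid hbj) (H.inv_mem hmid)
    have hpw : ρ (pw i j) = ρ (gb i) * (ρ (ga i))⁻¹ * (ρ (gb i))⁻¹ * ρ (sw i j) := by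
      rw [pw, map_mul, map_mul, map_mul, map_inv, map_inv]
    have hcH : ρ (gb i) * (ρ (ga i))⁻¹ * (ρ (gb i))⁻¹ ∈ H :=
      H.mul_mem (H.mul_mem hbi (H.inv_mem hai)) (H.inv_mem hbi)
    have hpwH : ρ (pw i j) ∈ H := by
      rw [hpw]
      exact H.mul_mem hcH hswH
    have xsw : X (ρ (sw i j)) = X (ρ (ga j)) := by rw [hsw, hX.conj hmid haj]
    have xtw : X (ρ (tw i j)) = X (ρ (gb j)) := by rw [htw, hX.conj hmid hbj]
    have xpw : X (ρ (pw i j)) = X (ρ (ga j)) - X (ρ (ga i)) := by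
      rw [hpw, hX.mul _ hcH _ hswH, hX.conj hbi (H.inv_mem hai), hX.inv hai, xsw]
      ring
    have hu : ρ (pw i j) ^ k * ρ (sw i j) * ρ (pw i j) ^ (-k) ∈ H :=
      H.mul_mem (H.mul_mem (H.zpow_mem hpwH k) hswH) (H.zpow_mem hpwH _)
    have hv : ρ (tw i j) * ρ (sw i j) ^ k * ρ (pw i j) ^ (-k) ∈ H :=
      H.mul_mem (H.mul_mem htwH (H.zpow_mem hswH k)) (H.zpow_mem hpwH _)
    have ebi : ρ (ph i j k (gb i)) = ρ (pw i j) ^ k * ρ (gb i) := by
      rw [ph_bi, map_mul, map_zpow]
    have eaj : ρ (ph i j k (ga j)) =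
        m⁻¹ * (ρ (pw i j) ^ k * ρ (sw i j) * ρ (pw i j) ^ (-k)) * m := by
      rw [ph_aj]
      simp only [map_mul, map_inv, map_zpow]
      rfl
    have ebj : ρ (ph i j k (gb j)) =
        m⁻¹ * (ρ (tw i j) * ρ (sw i j) ^ k * ρ (pw i j) ^ (-k)) * m := by
      rw [ph_bj hij]
      simp only [map_mul, map_inv, map_zpow]
      rfl
    refine ⟨psh i j hij k, psh_mem hij k, fun l hl => ?_, ?_⟩
    · show ρ (ph i j k (ga l)) ∈ H ∧ ρ (ph i j k (gb l)) ∈ H
      by_cases hli : l = i
      · subst hli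
        rw [ph_ai hij, ebi]
        exact ⟨hai, H.mul_mem (H.zpow_mem hpwH k) hbi⟩
      · by_cases hlj : l = j
        · subst hlj
          rw [eaj, ebj]
          exact ⟨H.mul_mem (H.mul_mem (H.inv_mem hmid) hu) hmid,
            H.mul_mem (H.mul_mem (H.inv_mem hmid) hv) hmid⟩
        · rw [ph_a' hlj, ph_b' hli hlj]
          exact hI l hl
    · funext l
      show (X (ρ (ph i j k (ga l))), X (ρ (ph i j k (gb l)))) = _
      by_cases hlj : l = j
      · subst hlj
        rw [Function.update_self, eaj, ebj, hX.conj' hmid hu, hX.conj' hmid hv,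
          hX.mul _ (H.mul_mem (H.zpow_mem hpwH k) hswH) _ (H.zpow_mem hpwH _),
          hX.mul _ (H.zpow_mem hpwH k) _ hswH,
          hX.mul _ (H.mul_mem htwH (H.zpow_mem hswH k)) _ (H.zpow_mem hpwH _),
          hX.mul _ htwH _ (H.zpow_mem hswH k), hX.zpow hpwH, hX.zpow hpwH, hX.zpow hswH,
          xsw, xtw, xpw]
        refine Prod.ext ?_ ?_
        · simp only [vals]
          push_cast
          ring
        · simp only [vals]
          push_cast
          ring
      · rw [Function.update_of_ne hlj]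
        by_cases hli : l = i
        · subst hli
          rw [Function.update_self, ph_ai hij, ebi, hX.mul _ (H.zpow_mem hpwH k) _ hbi,
            hX.zpow hpwH, xpw]
          refine Prod.ext rfl ?_
          simp only [vals]
          ring
        · rw [Function.update_of_ne hli, ph_a' hlj, ph_b' hli hlj]
          rfl

theorem real_ops (hX : Chr H M p X) {h : ℕ} {ρ : F g n →* Q} (hI : Inv h H ρ)
    {v' : Fin g → ZMod p × ZMod p} (hv : Relation.ReflTransGen (Op h) (vals X ρ) v') :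
    ∃ φ ∈ MCG g n, Inv h H (ρ.comp (MulEquiv.toMonoidHom φ)) ∧
      vals X (ρ.comp (MulEquiv.toMonoidHom φ)) = v' := by
  induction hv with
  | refl => exact ⟨1, (MCG g n).one_mem, hI, rfl⟩
  | tail _ h2 ih =>
    obtain ⟨φ, hφ, h3, h4⟩ := ih
    rw [← h4] at h2
    obtain ⟨ψ, hψ, h5, h6⟩ := real_op hX h3 h2
    exact ⟨φ * ψ, (MCG g n).mul_mem hφ hψ, h5, h6⟩

/-- One prime factor costs one handle. -/
theorem drop_one [Fact p.Prime] (hX : Chr H M p X) {h : ℕ} (hhg : h + 1 ≤ g) {ρ : F g n →* Q}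
    (hI : Inv (h + 1) H ρ) : ∃ φ ∈ MCG g n, Inv h M (ρ.comp (MulEquiv.toMonoidHom φ)) := by
  obtain ⟨v', h1, h2⟩ := op_all (h := h + 1) (vals X ρ) ⟨h, hhg⟩ (Nat.lt_succ_self h) h le_rfl
  obtain ⟨φ, hφ, h3, h4⟩ := real_ops hX hI h1
  refine ⟨φ, hφ, fun i hi => ?_⟩
  have h5 := h3 i (by omega)
  have h6 := h2 i hi
  rw [← h4] at h6
  exact ⟨(hX.ker _ h5.1).mp (congrArg Prod.fst h6), (hX.ker _ h5.2).mp (congrArg Prod.snd h6)⟩

end Real

open scoped commutatorElement

/-- A nontrivial finite solvable group has a character of prime order. -/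
theorem exists_chr {Q : Type*} [Group Q] (H : Subgroup Q) [Finite H] [Group.IsSolvable H]
    [Nontrivial H] : ∃ (p : ℕ) (_ : Fact p.Prime) (M : Subgroup Q) (X : Q → ZMod p),
      Chr H M p X ∧ M ≤ H ∧ Nat.card H = p * Nat.card M := by
  classical
  have hlt : commutator H < ⊤ := Group.IsSolvable.commutator_lt_top_of_nontrivial H
  obtain ⟨C, hC, hle⟩ := (eq_top_or_exists_le_coatom (commutator H)).resolve_left hlt.ne
  have hCn : C.Normal := by
    refine ⟨fun x hx y => ?_⟩
    have h1 : ⁅y, x⁆ ∈ C := hle (Subgroup.commutator_mem_commutator (Subgroup.mem_top y)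
      (Subgroup.mem_top x))
    have e : y * x * y⁻¹ = ⁅y, x⁆ * x := by
      rw [commutatorElement_def]
      group
    rw [e]
    exact C.mul_mem h1 hx
  letI : CommGroup (H ⧸ C) :=
    { (inferInstance : Group (H ⧸ C)) with
      mul_comm := by
        intro a b
        obtain ⟨x, rfl⟩ := QuotientGroup.mk_surjective a
        obtain ⟨y, rfl⟩ := QuotientGroup.mk_surjective b
        rw [← QuotientGroup.mk_mul, ← QuotientGroup.mk_mul, QuotientGroup.eq]
        have h1 : ⁅y⁻¹, x⁻¹⁆ ∈ C := hle (Subgroup.commutator_mem_commutator (Subgroup.mem_top _)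
          (Subgroup.mem_top _))
        have e : (x * y)⁻¹ * (y * x) = ⁅y⁻¹, x⁻¹⁆ := by
          rw [commutatorElement_def]
          group
        rw [e]
        exact h1 }
  haveI : Nontrivial (H ⧸ C) := by
    rw [← not_subsingleton_iff_nontrivial]
    intro h
    exact hC.1 (QuotientGroup.subgroup_eq_top_of_subsingleton C h)
  haveI : IsSimpleGroup (H ⧸ C) := by
    refine ⟨fun N _ => ?_⟩
    have h1 : C ≤ N.comap (QuotientGroup.mk' C) := by
      intro x hx
      rw [Subgroup.mem_comap]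
      have : QuotientGroup.mk' C x = 1 := (QuotientGroup.eq_one_iff x).mpr hx
      rw [this]
      exact N.one_mem
    rcases h1.eq_or_lt with h2 | h2
    · left
      rw [eq_bot_iff]
      intro y hy
      obtain ⟨x, rfl⟩ := QuotientGroup.mk_surjective y
      have : x ∈ C := by
        rw [h2]
        exact hy
      rw [Subgroup.mem_bot]
      exact (QuotientGroup.eq_one_iff x).mpr this
    · right
      have h3 := hC.2 _ h2
      rw [eq_top_iff]
      intro y _
      obtain ⟨x, rfl⟩ := QuotientGroup.mk_surjective y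
      have : x ∈ N.comap (QuotientGroup.mk' C) := by
        rw [h3]
        exact Subgroup.mem_top x
      exact this
  have hp : (Nat.card (H ⧸ C)).Prime := IsSimpleGroup.prime_card
  haveI : Fact (Nat.card (H ⧸ C)).Prime := ⟨hp⟩
  haveI : IsCyclic (H ⧸ C) := isCyclic_of_prime_card (p := Nat.card (H ⧸ C)) rfl
  let e : Multiplicative (ZMod (Nat.card (H ⧸ C))) ≃* (H ⧸ C) := zmodCyclicMulEquiv inferInstance
  refine ⟨Nat.card (H ⧸ C), ⟨hp⟩, C.map H.subtype,
    fun x => if h : x ∈ H then Multiplicative.toAdd (e.symm (QuotientGroup.mk ⟨x, h⟩)) else 0,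
    ⟨?_, ?_⟩, ?_, ?_⟩
  · intro x hx y hy
    rw [dif_pos hx, dif_pos hy, dif_pos (H.mul_mem hx hy), ← toAdd_mul, ← map_mul,
      ← QuotientGroup.mk_mul]
    rfl
  · intro x hx
    rw [dif_pos hx]
    constructor
    · intro h
      have h1 : e.symm (QuotientGroup.mk ⟨x, hx⟩) = 1 := h
      rw [MulEquiv.map_eq_one_iff] at h1
      exact ⟨⟨x, hx⟩, (QuotientGroup.eq_one_iff _).mp h1, rfl⟩
    · rintro ⟨y, hy, hyx⟩
      have h2 : y = ⟨x, hx⟩ := Subtype.ext hyx
      rw [← h2]
      have h3 : (QuotientGroup.mk y : H ⧸ C) = 1 := (QuotientGroup.eq_one_iff _).mpr hy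
      rw [h3, map_one]
      rfl
  · rintro _ ⟨y, _, rfl⟩
    exact y.2
  · have h1 : Nat.card (C.map H.subtype) = Nat.card C :=
      Nat.card_congr (Subgroup.equivMapOfInjective C H.subtype H.subtype_injective).symm.toEquiv
    rw [h1]
    exact (Subgroup.card_eq_card_quotient_mul_card_subgroup C)

/-- Finite solvable groups with few prime factors. -/
theorem solv_step {Q : Type*} [Group Q] (r : ℕ) : ∀ (H : Subgroup Q) [Finite H]
    [Group.IsSolvable H] (ρ : F g n →* Q) (h : ℕ), (Nat.card H).primeFactorsList.length = r →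
    r < h → h ≤ g → Inv h H ρ →
    ∃ φ ∈ MCG g n, Inv (h - r) (⊥ : Subgroup Q) (ρ.comp (MulEquiv.toMonoidHom φ)) := by
  induction r with
  | zero =>
    intro H _ _ ρ h hr _ _ hI
    have h1 : Nat.card H = 1 := by
      rw [List.length_eq_zero_iff, Nat.primeFactorsList_eq_nil] at hr
      rcases hr with hr | hr
      · exact absurd hr Nat.card_pos.ne'
      · exact hr
    have h2 : H = ⊥ := Subgroup.card_eq_one.mp h1
    subst h2
    exact ⟨1, (MCG g n).one_mem, hI⟩
  | succ r ih =>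
    intro H _ _ ρ h hr hrh hhg hI
    haveI : Nontrivial H := by
      rw [← Finite.one_lt_card_iff_nontrivial]
      by_contra h1
      have h2 : Nat.card H = 1 := le_antisymm (not_lt.mp h1) Nat.card_pos
      rw [h2] at hr
      simp at hr
    obtain ⟨p, hp, M, X, hX, hMH, hcard⟩ := exists_chr H
    obtain ⟨h', rfl⟩ : ∃ h', h = h' + 1 := ⟨h - 1, by omega⟩
    obtain ⟨φ, hφ, h3⟩ := drop_one hX hhg hI
    haveI : Finite M := Finite.of_injective (Subgroup.inclusion hMH)
      (Subgroup.inclusion_injective hMH)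
    haveI : Group.IsSolvable M := Group.isSolvable_of_isSolvable_injective
      (Subgroup.inclusion_injective hMH)
    have h4 : (Nat.card M).primeFactorsList.length = r := by
      have h5 := (Nat.perm_primeFactorsList_mul hp.1.ne_zero
        (Nat.card_pos (α := M)).ne').length_eq
      rw [← hcard, hr, List.length_append, Nat.primeFactorsList_prime hp.1] at h5
      simp at h5
      omega
    obtain ⟨ψ, hψ, h6⟩ := ih M (ρ.comp (MulEquiv.toMonoidHom φ)) h' h4 (by omega) (by omega) h3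
    refine ⟨φ * ψ, (MCG g n).mul_mem hφ hψ, ?_⟩
    have e : h' + 1 - (r + 1) = h' - r := by omega
    rw [e]
    exact h6

end Pool.Agent.PW
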