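import Pool.Agent.PW.Solv

/-!
# Central handles from solvability
-/

namespace Pool.Agent.PW

variable {g n : ℕ}

/-- If the deck group modulo its centre is solvable and its order has less than `g` prime factors,
then there is a central handle. -/
theorem centralHandle_of_solvable (K : Subgroup (F g n)) [K.FiniteIndex]
    (hs : Group.IsSolvable (Deck K ⧸ Subgroup.center (Deck K)))
    (hl : (Nat.card (Deck K ⧸ Subgroup.center (Deck K))).primeFactorsList.length < g) :
    CentralHandle K := by
  have : Finite (Deck K) := inferInstance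
  have h1 : Nat.card (⊤ : Subgroup (Deck K ⧸ Subgroup.center (Deck K))) =
      Nat.card (Deck K ⧸ Subgroup.center (Deck K)) := Subgroup.card_top
  obtain ⟨φ, hφ, h2⟩ := solv_step (g := g) (n := n)
    (Nat.card (Deck K ⧸ Subgroup.center (Deck K))).primeFactorsList.length
    (⊤ : Subgroup (Deck K ⧸ Subgroup.center (Deck K)))
    ((QuotientGroup.mk' (Subgroup.center (Deck K))).comp (QuotientGroup.mk' K.normalCore)) g
    (by rw [h1]) hl le_rfl (fun i _ => ⟨Subgroup.mem_top _, Subgroup.mem_top _⟩)
  have hg : 0 < g := by omega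
  have h3 := h2 ⟨0, hg⟩ (by simp only; omega)
  refine ⟨φ, hφ, hg, ?_, ?_⟩
  · have h4 := Subgroup.mem_bot.mp h3.1
    exact (QuotientGroup.eq_one_iff _).mp h4
  · have h4 := Subgroup.mem_bot.mp h3.2
    exact (QuotientGroup.eq_one_iff _).mp h4

end Pool.Agent.PW
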