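import Pool.Agent.PW.Autos

/-!
# Weighted transfer
-/

namespace Pool.Agent.PW

section Abstract

variable {G : Type*} [Group G]

/-- `f` is additive on `N`. -/
def AddOn (N : Subgroup G) (f : G → ℚ) : Prop := ∀ x ∈ N, ∀ y ∈ N, f (x * y) = f x + f y

variable {N : Subgroup G} {f : G → ℚ}

theorem AddOn.one (h : AddOn N f) : f 1 = 0 := by
  have := h 1 N.one_mem 1 N.one_mem
  rw [mul_one] at this
  linarith

theorem AddOn.inv (h : AddOn N f) {x : G} (hx : x ∈ N) : f x⁻¹ = -f x := by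
  have := h x hx x⁻¹ (N.inv_mem hx)
  rw [mul_inv_cancel, h.one] at this
  linarith

theorem AddOn.pow (h : AddOn N f) {x : G} (hx : x ∈ N) (m : ℕ) : f (x ^ m) = m * f x := by
  induction m with
  | zero => simp [h.one]
  | succ m ih =>
    rw [pow_succ, h _ (N.pow_mem hx m) _ hx, ih]
    push_cast
    ring

theorem AddOn.conj (h : AddOn N f) {w k : G} (hw : w ∈ N) (hk : k ∈ N) : f (w * k * w⁻¹) = f k := by
  rw [h _ (N.mul_mem hw hk) _ (N.inv_mem hw), h _ hw _ hk, h.inv hw]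
  ring

variable [hN : N.Normal]

/-- The value on a conjugate depends only on the coset. -/
theorem AddOn.conj_eq (h : AddOn N f) {x y k : G} (hk : k ∈ N) (hxy : (x : G ⧸ N) = y) :
    f (x * k * x⁻¹) = f (y * k * y⁻¹) := by
  have h1 : x⁻¹ * y ∈ N := QuotientGroup.eq.mp hxy
  have h2 : y * x⁻¹ ∈ N := by
    have := hN.conj_mem _ h1 x
    have e : x * (x⁻¹ * y) * x⁻¹ = y * x⁻¹ := by group
    rwa [e] at this
  have h3 : x * k * x⁻¹ ∈ N := hN.conj_mem _ hk x
  rw [← h.conj h2 h3]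
  congr 1
  group

variable [Fintype (G ⧸ N)]

/-- The transfer with weights `H`. -/
noncomputable def tr (N : Subgroup G) [N.Normal] [Fintype (G ⧸ N)] (f : G → ℚ) (H : G ⧸ N → ℚ)
    (x : G) : ℚ := ∑ q : G ⧸ N, H q * f (q.out * x * (q * (x : G ⧸ N)).out⁻¹)

/-- The elements which keep the weights. -/
def kp (H : G ⧸ N → ℚ) : Subgroup G where
  carrier := {x | ∀ q, H (q * (x : G ⧸ N)) = H q}
  one_mem' := by
    intro q
    simp
  mul_mem' := by
    intro x y hx hy q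
    rw [QuotientGroup.mk_mul, ← mul_assoc, hy, hx]
  inv_mem' := by
    intro x hx q
    have := hx (q * ((x⁻¹ : G) : G ⧸ N))
    rw [QuotientGroup.mk_inv, inv_mul_cancel_right] at this
    rw [QuotientGroup.mk_inv, this]

theorem mem_kp {H : G ⧸ N → ℚ} {x : G} : x ∈ kp H ↔ ∀ q, H (q * (x : G ⧸ N)) = H q := Iff.rfl

theorem out_mem (q : G ⧸ N) (x : G) : q.out * x * (q * (x : G ⧸ N)).out⁻¹ ∈ N := by
  rw [← QuotientGroup.eq_one_iff]
  simp

theorem tr_mul (h : AddOn N f) {H : G ⧸ N → ℚ} {x : G} (hx : x ∈ kp H) (y : G) :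
    tr N f H (x * y) = tr N f H x + tr N f H y := by
  have e : tr N f H y =
      ∑ q : G ⧸ N, H q * f ((q * (x : G ⧸ N)).out * y * (q * (x : G ⧸ N) * (y : G ⧸ N)).out⁻¹) := by
    unfold tr
    rw [← Equiv.sum_comp (Equiv.mulRight (x : G ⧸ N))]
    refine Finset.sum_congr rfl fun q _ => ?_
    simp only [Equiv.coe_mulRight]
    rw [hx q]
  rw [e]
  unfold tr
  rw [← Finset.sum_add_distrib]
  refine Finset.sum_congr rfl fun q _ => ?_
  rw [← mul_add, ← h _ (out_mem q x) _ (out_mem (q * (x : G ⧸ N)) y)]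
  congr 2
  rw [QuotientGroup.mk_mul, ← mul_assoc q]
  group

theorem tr_mem {H : G ⧸ N → ℚ} {k : G} (hk : k ∈ N) :
    tr N f H k = ∑ q : G ⧸ N, H q * f (q.out * k * q.out⁻¹) := by
  unfold tr
  have : (k : G ⧸ N) = 1 := (QuotientGroup.eq_one_iff k).mpr hk
  refine Finset.sum_congr rfl fun q _ => ?_
  rw [this, mul_one]

theorem tr_one (h : AddOn N f) (H : G ⧸ N → ℚ) : tr N f H 1 = 0 := by
  rw [tr_mem N.one_mem]
  refine Finset.sum_eq_zero fun q _ => ?_
  rw [mul_one, mul_inv_cancel, h.one, mul_zero]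

theorem tr_inv (h : AddOn N f) {H : G ⧸ N → ℚ} {x : G} (hx : x ∈ kp H) :
    tr N f H x⁻¹ = -tr N f H x := by
  have := tr_mul h hx x⁻¹
  rw [mul_inv_cancel, tr_one h] at this
  linarith

theorem tr_pow (h : AddOn N f) {H : G ⧸ N → ℚ} {x : G} (hx : x ∈ kp H) (m : ℕ) :
    tr N f H (x ^ m) = m * tr N f H x := by
  induction m with
  | zero => simp [tr_one h]
  | succ m ih =>
    rw [pow_succ, tr_mul h ((kp H).pow_mem hx m), ih]
    push_cast
    ring

/-- The elements on which the transfer vanishes. -/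
noncomputable def trk (h : AddOn N f) (H : G ⧸ N → ℚ) : Subgroup G where
  carrier := {x | x ∈ kp H ∧ tr N f H x = 0}
  one_mem' := ⟨(kp H).one_mem, tr_one h H⟩
  mul_mem' := by
    rintro x y ⟨h1, h2⟩ ⟨h3, h4⟩
    exact ⟨(kp H).mul_mem h1 h3, by rw [tr_mul h h1, h2, h4, add_zero]⟩
  inv_mem' := by
    rintro x ⟨h1, h2⟩
    exact ⟨(kp H).inv_mem h1, by rw [tr_inv h h1, h2, neg_zero]⟩

theorem mem_trk (h : AddOn N f) {H : G ⧸ N → ℚ} {x : G} :
    x ∈ trk h H ↔ x ∈ kp H ∧ tr N f H x = 0 := Iff.rfl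

theorem cm_mem_trk (h : AddOn N f) {H : G ⧸ N → ℚ} {x y : G} (hx : x ∈ kp H) (hy : y ∈ kp H) :
    cm x y ∈ trk h H := by
  have hx' := (kp H).inv_mem hx
  have hy' := (kp H).inv_mem hy
  refine ⟨(kp H).mul_mem ((kp H).mul_mem ((kp H).mul_mem hx hy) hx') hy', ?_⟩
  unfold cm
  rw [tr_mul h ((kp H).mul_mem ((kp H).mul_mem hx hy) hx'), tr_mul h ((kp H).mul_mem hx hy),
    tr_mul h hx, tr_inv h hx, tr_inv h hy]
  ring

theorem mem_trk_of_pow (h : AddOn N f) {H : G ⧸ N → ℚ} {x : G} (hx : x ∈ kp H) {m : ℕ}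
    (hm : 0 < m) (hxm : x ^ m ∈ N) (h0 : ∀ w, f (w * x ^ m * w⁻¹) = 0) : x ∈ trk h H := by
  refine ⟨hx, ?_⟩
  have h1 := tr_pow h hx m
  have h2 : tr N f H (x ^ m) = 0 := by
    rw [tr_mem hxm]
    exact Finset.sum_eq_zero fun q _ => by rw [h0, mul_zero]
  rw [h2] at h1
  have h3 : (m : ℚ) ≠ 0 := by exact_mod_cast hm.ne'
  rcases mul_eq_zero.mp h1.symm with h4 | h4
  · exact absurd h4 h3
  · exact h4

/-! ### The potential of an automorphism -/

/-- The data of the argument: `τ` is the identity modulo `N` and keeps `f`. -/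
structure Fixes (N : Subgroup G) (f : G → ℚ) (τ : G →* G) : Prop where
  mod : ∀ x, τ x * x⁻¹ ∈ N
  inv : ∀ x ∈ N, f (τ x) = f x

/-- The potential. -/
def pot (f : G → ℚ) (τ : G →* G) (x : G) : ℚ := f (τ x * x⁻¹)

variable {τ : G →* G}

theorem Fixes.mem (h : Fixes N f τ) {x : G} (hx : x ∈ N) : τ x ∈ N := by
  have := N.mul_mem (h.mod x) hx
  rwa [inv_mul_cancel_right] at this

theorem pot_mul (ha : AddOn N f) (h : Fixes N f τ) (x y : G) :
    pot f τ (x * y) = pot f τ x + f (x * (τ y * y⁻¹) * x⁻¹) := by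
  unfold pot
  rw [← ha _ (h.mod x) _ (hN.conj_mem _ (h.mod y) x)]
  congr 1
  rw [map_mul]
  group

theorem pot_mul_mem (ha : AddOn N f) (h : Fixes N f τ) (x : G) {k : G} (hk : k ∈ N) :
    pot f τ (x * k) = pot f τ x := by
  rw [pot_mul ha h]
  have h1 : f (x * (τ k * k⁻¹) * x⁻¹) = 0 := by
    have e : x * (τ k * k⁻¹) * x⁻¹ = (x * τ k * x⁻¹) * (x * k * x⁻¹)⁻¹ := by group
    have m1 : x * τ k * x⁻¹ ∈ N := hN.conj_mem _ (h.mem hk) x
    have m2 : x * k * x⁻¹ ∈ N := hN.conj_mem _ hk x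
    rw [e, ha _ m1 _ (N.inv_mem m2), ha.inv m2, ← h.inv _ m2, map_mul, map_mul, map_inv]
    have h2 : f (τ x * τ k * (τ x)⁻¹) = f (x * τ k * x⁻¹) := by
      apply ha.conj_eq (h.mem hk)
      rw [QuotientGroup.eq]
      have h3 := hN.conj_mem _ (N.inv_mem (h.mod x)) x⁻¹
      have e3 : x⁻¹ * (τ x * x⁻¹)⁻¹ * x⁻¹⁻¹ = (τ x)⁻¹ * x := by group
      rwa [e3] at h3
    rw [h2]
    ring
  rw [h1, add_zero]

/-- The potential as a function on the quotient. -/
noncomputable def potq (N : Subgroup G) (f : G → ℚ) (τ : G →* G) (q : G ⧸ N) : ℚ :=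
  pot f τ q.out

theorem potq_mk (ha : AddOn N f) (h : Fixes N f τ) (x : G) : potq N f τ (x : G ⧸ N) = pot f τ x := by
  unfold potq
  obtain ⟨k, hk⟩ := QuotientGroup.mk_out_eq_mul N x
  rw [hk, pot_mul_mem ha h x k.2]

theorem potq_mul (ha : AddOn N f) (h : Fixes N f τ) (q : G ⧸ N) (y : G) :
    potq N f τ (q * (y : G ⧸ N)) = potq N f τ q + f (q.out * (τ y * y⁻¹) * q.out⁻¹) := by
  have e : q * (y : G ⧸ N) = ((q.out * y : G) : G ⧸ N) := by simp
  rw [e, potq_mk ha h, pot_mul ha h]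
  rfl

theorem mem_kp_potq (ha : AddOn N f) (h : Fixes N f τ) {y : G} (hy : τ y = y) :
    y ∈ kp (potq N f τ) := by
  intro q
  rw [potq_mul ha h, hy, mul_inv_cancel, mul_one, mul_inv_cancel, ha.one, add_zero]

/-- The twist about a nonseparating curve. -/
theorem kill_one (ha : AddOn N f) (h : Fixes N f τ) {a b : G} {M : ℕ} (hz : b ^ M ∈ N)
    (ht : τ a = a * b ^ M) (hb : τ b = b)
    (hc : a * b * a⁻¹ * b⁻¹ ∈ trk ha (potq N f τ)) (w : G) : f (w * b ^ M * w⁻¹) = 0 := by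
  set H := potq N f τ with hH
  have hbk : b ∈ kp H := mem_kp_potq ha h hb
  have hak : a * b * a⁻¹ ∈ kp H := by
    have := (kp H).mul_mem hc.1 hbk
    rwa [inv_mul_cancel_right] at this
  have htr : tr N f H (a * b * a⁻¹) = tr N f H b := by
    have e : a * b * a⁻¹ = (a * b * a⁻¹ * b⁻¹) * b := by group
    rw [e, tr_mul ha hc.1, hc.2, zero_add]
  let u : G ⧸ N → ℚ := fun q => f (q.out * b ^ M * q.out⁻¹)
  have hu : ∀ x : G, u (x : G ⧸ N) = f (x * b ^ M * x⁻¹) := by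
    intro x
    exact ha.conj_eq hz (by simp)
  have huq : ∀ (q : G ⧸ N) (y : G), u (q * (y : G ⧸ N)) = f (q.out * (y * b ^ M * y⁻¹) * q.out⁻¹) := by
    intro q y
    have e : q * (y : G ⧸ N) = ((q.out * y : G) : G ⧸ N) := by simp
    rw [e, hu]
    congr 1
    group
  have hHa : ∀ q, H (q * (a : G ⧸ N)) = H q + u (q * (a : G ⧸ N)) := by
    intro q
    rw [hH, potq_mul ha h, huq, ht]
  have s1 : ∑ q, u (q * (a : G ⧸ N)) * H (q * (a : G ⧸ N)) = M * tr N f H b := by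
    rw [← tr_pow ha hbk, tr_mem hz, ← Equiv.sum_comp (Equiv.mulRight (a : G ⧸ N))
      (fun q => H q * f (q.out * b ^ M * q.out⁻¹))]
    refine Finset.sum_congr rfl fun q _ => ?_
    simp only [Equiv.coe_mulRight]
    rw [mul_comm]
  have s2 : ∑ q, u (q * (a : G ⧸ N)) * H q = M * tr N f H (a * b * a⁻¹) := by
    have hz' : (a * b * a⁻¹) ^ M ∈ N := by
      rw [conj_pow]
      exact hN.conj_mem _ hz a
    rw [← tr_pow ha hak, tr_mem hz', conj_pow]
    refine Finset.sum_congr rfl fun q _ => ?_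
    rw [huq, mul_comm]
  have s3 : ∑ q, u (q * (a : G ⧸ N)) ^ 2 = 0 := by
    have : ∀ q, u (q * (a : G ⧸ N)) ^ 2 =
        u (q * (a : G ⧸ N)) * H (q * (a : G ⧸ N)) - u (q * (a : G ⧸ N)) * H q := by
      intro q
      rw [hHa q]
      ring
    rw [Finset.sum_congr rfl fun q _ => this q, Finset.sum_sub_distrib, s1, s2, htr]
    ring
  have s4 : ∀ q, u (q * (a : G ⧸ N)) ^ 2 = 0 := by
    intro q
    exact (Finset.sum_eq_zero_iff_of_nonneg fun q _ => sq_nonneg _).mp s3 q (Finset.mem_univ q)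
  have s5 := s4 (((w * a⁻¹ : G)) : G ⧸ N)
  have e5 : ((w * a⁻¹ : G) : G ⧸ N) * (a : G ⧸ N) = (w : G ⧸ N) := by
    rw [← QuotientGroup.mk_mul, inv_mul_cancel_right]
  rw [e5, hu] at s5
  exact pow_eq_zero_iff (two_ne_zero) |>.mp s5

/-- The twist about the boundary of a handle. -/
theorem kill_two (ha : AddOn N f) (h : Fixes N f τ) {a b : G} {M : ℕ} (hz : cm a b ^ M ∈ N)
    (hta : τ a = cm a b ^ M * a * (cm a b ^ M)⁻¹) (htb : τ b = cm a b ^ M * b * (cm a b ^ M)⁻¹)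
    (hc : cm a b ∈ trk ha (potq N f τ)) (w : G) : f (w * cm a b ^ M * w⁻¹) = 0 := by
  set H := potq N f τ with hH
  set z := cm a b ^ M with hzz
  let u : G ⧸ N → ℚ := fun q => f (q.out * z * q.out⁻¹)
  have hu : ∀ x : G, u (x : G ⧸ N) = f (x * z * x⁻¹) := by
    intro x
    exact ha.conj_eq hz (by simp)
  have huq : ∀ (q : G ⧸ N) (y : G), u (q * (y : G ⧸ N)) = f (q.out * (y * z * y⁻¹) * q.out⁻¹) := by
    intro q y
    have e : q * (y : G ⧸ N) = ((q.out * y : G) : G ⧸ N) := by simp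
    rw [e, hu]
    congr 1
    group
  have key : ∀ y : G, τ y = z * y * z⁻¹ → y ∈ kp (fun q => H q + u q) := by
    intro y hy q
    simp only
    rw [hH, potq_mul ha h, huq, hy]
    have e : q.out * (z * y * z⁻¹ * y⁻¹) * q.out⁻¹ =
        (q.out * z * q.out⁻¹) * (q.out * (y * z * y⁻¹) * q.out⁻¹)⁻¹ := by group
    have m1 : q.out * z * q.out⁻¹ ∈ N := hN.conj_mem _ hz _
    have m2 : q.out * (y * z * y⁻¹) * q.out⁻¹ ∈ N := hN.conj_mem _ (hN.conj_mem _ hz _) _
    rw [e, ha _ m1 _ (N.inv_mem m2), ha.inv m2]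
    ring
  have hcm : cm a b ∈ trk ha (fun q => H q + u q) := cm_mem_trk ha (key a hta) (key b htb)
  have s1 : ∑ q, (H q + u q) * u q = 0 := by
    have := tr_pow ha hcm.1 M
    rw [hcm.2, mul_zero, tr_mem hz] at this
    exact this
  have s2 : ∑ q, H q * u q = 0 := by
    have := tr_pow ha hc.1 M
    rw [hc.2, mul_zero, tr_mem hz] at this
    exact this
  have s3 : ∑ q, u q ^ 2 = 0 := by
    have : ∀ q, u q ^ 2 = (H q + u q) * u q - H q * u q := by
      intro q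
      ring
    rw [Finset.sum_congr rfl fun q _ => this q, Finset.sum_sub_distrib, s1, s2]
    ring
  have s4 := (Finset.sum_eq_zero_iff_of_nonneg fun q _ => sq_nonneg (u q)).mp s3 (w : G ⧸ N)
    (Finset.mem_univ _)
  rw [hu] at s4
  exact pow_eq_zero_iff (two_ne_zero) |>.mp s4

end Abstract

end Pool.Agent.PW
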