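import Pool.Agent.PW.Central

/-!
# Vanishing of the class
-/

namespace Pool.Agent.PW

variable {g n : ℕ} {N : Subgroup (F g n)} {f : F g n → ℚ}

/-- The homomorphism which kills the first handle. -/
def retr (n : ℕ) (z : Fin g) : F g n →* F g n :=
  FreeGroup.lift fun x => if x = Gen.a z ∨ x = Gen.b z then 1 else FreeGroup.of x

theorem retr_a (z : Fin g) : retr n z (ga z) = 1 := by
  simp [retr, ga]

theorem retr_b (z : Fin g) : retr n z (gb z) = 1 := by
  simp [retr, gb]

theorem retr_a' {z i : Fin g} (h : i ≠ z) : retr n z (ga i) = ga i := by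
  simp [retr, ga, h]

theorem retr_b' {z i : Fin g} (h : i ≠ z) : retr n z (gb i) = gb i := by
  simp [retr, gb, h]

theorem retr_c (z : Fin g) (j : Fin n) : retr n z (gc j) = gc j := by
  simp [retr, gc]

theorem retr_away (z : Fin g) (x : F g n) : retr n z x ∈ away z := by
  have : (⊤ : Subgroup (F g n)) ≤ (away z).comap (retr n z) := by
    rw [← eq_top_of_gens (E := (away z).comap (retr n z))]
    · intro i
      show retr n z (ga i) ∈ away z
      by_cases hi : i = z
      · rw [hi, retr_a]
        exact (away z).one_mem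
      · rw [retr_a' hi]
        exact away_a hi
    · intro i
      show retr n z (gb i) ∈ away z
      by_cases hi : i = z
      · rw [hi, retr_b]
        exact (away z).one_mem
      · rw [retr_b' hi]
        exact away_b hi
    · intro j
      show retr n z (gc j) ∈ away z
      rw [retr_c]
      exact away_c z j
  exact this (Subgroup.mem_top x)

theorem retr_mod (z : Fin g) (x : F g n) :
    (retr n z x)⁻¹ * x ∈ Subgroup.normalClosure {(ga z : F g n), gb z} := by
  have h : (QuotientGroup.mk' (Subgroup.normalClosure {(ga z : F g n), gb z})).comp (retr n z) =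
      QuotientGroup.mk' (Subgroup.normalClosure {(ga z : F g n), gb z}) := by
    have h1 : ∀ y ∈ ({(ga z : F g n), gb z} : Set (F g n)),
        QuotientGroup.mk' (Subgroup.normalClosure {(ga z : F g n), gb z}) y = 1 := by
      intro y hy
      rw [QuotientGroup.mk'_apply, QuotientGroup.eq_one_iff]
      exact Subgroup.subset_normalClosure hy
    apply hom_ext
    · intro i
      by_cases hi : i = z
      · subst hi
        rw [MonoidHom.comp_apply, retr_a, map_one, h1 _ (Or.inl rfl)]
      · rw [MonoidHom.comp_apply, retr_a' hi]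
    · intro i
      by_cases hi : i = z
      · subst hi
        rw [MonoidHom.comp_apply, retr_b, map_one, h1 _ (Or.inr rfl)]
      · rw [MonoidHom.comp_apply, retr_b' hi]
    · intro j
      rw [MonoidHom.comp_apply, retr_c]
  have h2 := DFunLike.congr_fun h x
  rw [MonoidHom.comp_apply, QuotientGroup.mk'_apply, QuotientGroup.mk'_apply,
    QuotientGroup.eq] at h2
  exact h2

/-- A class with finite orbit vanishes if the first handle is central. -/
theorem Good.vanish (h : Good N f) {z : Fin g} (hz : (z : ℕ) = 0) (hcen : ∀ x, cm (ga z) x ∈ N)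
    (hcen' : ∀ x, cm (gb z) x ∈ N) {x : F g n} (hx : x ∈ N) : f x = 0 := by
  classical
  have hN := h.normal
  have hF := h.fin
  have : Fintype (F g n ⧸ N) := Fintype.ofFinite _
  obtain ⟨L, hL, hLN⟩ := exists_exp hN hF
  let Z : Subgroup (F g n ⧸ N) :=
    Subgroup.closure {((ga z : F g n) : F g n ⧸ N), ((gb z : F g n) : F g n ⧸ N)}
  let K1 : Subgroup (F g n) := Z.comap (QuotientGroup.mk' N)
  have hK1 : ∀ y, y ∈ K1 ↔ (y : F g n ⧸ N) ∈ Z := fun y => Iff.rfl
  have hNK : N ≤ K1 := by
    intro y hy
    rw [hK1, (QuotientGroup.eq_one_iff y).mpr hy]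
    exact Z.one_mem
  let H : F g n ⧸ N → ℚ := fun q => if q ∈ Z then 1 else 0
  have hkp : K1 ≤ kp H := by
    intro y hy q
    have : q * (y : F g n ⧸ N) ∈ Z ↔ q ∈ Z := Z.mul_mem_cancel_right hy
    simp only [H, this]
  -- `f` is invariant under conjugation by `K1`
  let S : Subgroup (F g n) :=
    { carrier := {w | ∀ k ∈ N, f (w * k * w⁻¹) = f k}
      one_mem' := by
        intro k _
        simp
      mul_mem' := by
        intro u v hu hv k hk
        have e : u * v * k * (u * v)⁻¹ = u * (v * k * v⁻¹) * u⁻¹ := by group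
        rw [e, hu _ (hN.conj_mem _ hk _), hv k hk]
      inv_mem' := by
        intro u hu k hk
        have := hu (u⁻¹ * k * u⁻¹⁻¹) (hN.conj_mem _ hk _)
        have e : u * (u⁻¹ * k * u⁻¹⁻¹) * u⁻¹ = k := by group
        rw [e] at this
        exact this.symm }
  have hNS : N ≤ S := fun w hw k hk => h.add.conj hw hk
  have haS : ga z ∈ S := fun k hk => h.inv_a hz hcen hk
  have hbS : gb z ∈ S := fun k hk => h.inv_b hz hcen hcen' hk
  have hKS : K1 ≤ S := by
    have h1 : Z ≤ S.map (QuotientGroup.mk' N) := by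
      rw [Subgroup.closure_le]
      rintro q (rfl | rfl)
      · exact ⟨ga z, haS, rfl⟩
      · exact ⟨gb z, hbS, rfl⟩
    intro w hw
    obtain ⟨s, hs, hsw⟩ := h1 hw
    rw [QuotientGroup.mk'_apply, QuotientGroup.mk'_apply, QuotientGroup.eq] at hsw
    have := S.mul_mem hs (hNS hsw)
    rwa [mul_inv_cancel_left] at this
  -- the value of the transfer on `N`
  let C : ℚ := ∑ q : F g n ⧸ N, H q
  have hC : 0 < C := by
    apply Finset.sum_pos'
    · intro q _
      simp only [H]
      split_ifs <;> norm_num
    · refine ⟨1, Finset.mem_univ _, ?_⟩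
      simp only [H, Z.one_mem, if_true]
      norm_num
  have htr : ∀ k ∈ N, tr N f H k = C * f k := by
    intro k hk
    rw [tr_mem hk, Finset.sum_mul]
    refine Finset.sum_congr rfl fun q _ => ?_
    simp only [H]
    split_ifs with hq
    · rw [one_mul, one_mul]
      apply hKS _ k hk
      rw [hK1]
      simpa using hq
    · simp
  -- elements of `K1` whose powers are killed
  have hpow : ∀ y ∈ K1, f (y ^ L) = 0 → y ∈ trk h.add H := by
    intro y hy h0
    refine ⟨hkp hy, ?_⟩
    have h1 := tr_pow h.add (hkp hy) L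
    rw [htr _ (hLN y), h0, mul_zero] at h1
    have h2 : (L : ℚ) ≠ 0 := by exact_mod_cast hL.ne'
    rcases mul_eq_zero.mp h1.symm with h3 | h3
    · exact absurd h3 h2
    · exact h3
  have haK : ga z ∈ K1 := Subgroup.subset_closure (Or.inl rfl)
  have hbK : gb z ∈ K1 := Subgroup.subset_closure (Or.inr rfl)
  have hconjK : ∀ (y w : F g n), y ∈ K1 → (∀ x, cm y x ∈ N) → w * y * w⁻¹ ∈ K1 := by
    intro y w hy hc
    have e : w * y * w⁻¹ = (cm y w)⁻¹ * y := by
      unfold cm
      group
    rw [e]
    exact K1.mul_mem (hNK (N.inv_mem (hc w))) hy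
  have hB : ∀ y ∈ Subgroup.normalClosure {(ga z : F g n), gb z}, y ∈ K1 ∧ y ∈ trk h.add H := by
    have h1 : Subgroup.normalClosure {(ga z : F g n), gb z} ≤ K1 ⊓ trk h.add H := by
      unfold Subgroup.normalClosure
      rw [Subgroup.closure_le]
      intro y hy
      rw [Group.mem_conjugatesOfSet_iff] at hy
      obtain ⟨a, ha, hay⟩ := hy
      obtain ⟨w, rfl⟩ := isConj_iff.mp hay
      rcases ha with rfl | rfl
      · have hm := hconjK _ w haK hcen
        refine ⟨hm, hpow _ hm ?_⟩
        rw [conj_pow]
        exact h.kill_a hz (hLN _) w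
      · have hm := hconjK _ w hbK hcen'
        refine ⟨hm, hpow _ hm ?_⟩
        rw [conj_pow]
        exact h.kill_b hz (hLN _) w
    exact fun y hy => h1 hy
  have hA : ∀ y ∈ Subgroup.normalClosure {(ga z : F g n)}, y ∈ K1 ∧ y ∈ trk h.add H := by
    intro y hy
    apply hB
    have hsub : ({(ga z : F g n)} : Set (F g n)) ⊆ {(ga z : F g n), gb z} := by
      intro t ht
      exact Or.inl ht
    exact Subgroup.normalClosure_mono hsub hy
  have hbT : gb z ∈ trk h.add H :=
    (hB _ (Subgroup.subset_normalClosure (Or.inr rfl))).2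
  -- the elements away from the handle
  have haway : ∀ y ∈ away z, y ∈ K1 → y ∈ trk h.add H := by
    intro y hy hyK
    obtain ⟨_, φ, hφ, hq⟩ := pushable_eq hz hy
    unfold qa at hq
    rw [QuotientGroup.mk'_apply, QuotientGroup.mk'_apply] at hq
    have hq' := QuotientGroup.eq.mp hq.symm
    obtain ⟨m1, m2⟩ := hA _ hq'
    have e : φ (gb z) = y * gb z * ((y * gb z)⁻¹ * φ (gb z)) := by group
    have hφK : φ (gb z) ∈ K1 := by
      rw [e]
      exact K1.mul_mem (K1.mul_mem hyK hbK) m1
    have hφT : φ (gb z) ∈ trk h.add H := by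
      apply hpow _ hφK
      have := h.kill_b' hz hφ.1 (m := L) (hLN _) 1
      simpa using this
    have e2 : y = φ (gb z) * ((y * gb z)⁻¹ * φ (gb z))⁻¹ * (gb z)⁻¹ := by group
    rw [e2]
    exact (trk h.add H).mul_mem ((trk h.add H).mul_mem hφT ((trk h.add H).inv_mem m2))
      ((trk h.add H).inv_mem hbT)
  -- conclusion
  obtain ⟨m1, m2⟩ := hB _ (retr_mod z x)
  have hrK : retr n z x ∈ K1 := by
    have := K1.mul_mem (hNK hx) (K1.inv_mem m1)
    have e : x * ((retr n z x)⁻¹ * x)⁻¹ = retr n z x := by group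
    rwa [e] at this
  have hr := haway _ (retr_away z x) hrK
  have hxT : x ∈ trk h.add H := by
    have := (trk h.add H).mul_mem hr m2
    rwa [mul_inv_cancel_left] at this
  have h0 := hxT.2
  rw [htr x hx] at h0
  rcases mul_eq_zero.mp h0 with h1 | h1
  · exact absurd h1 hC.ne'
  · exact h1

end Pool.Agent.PW
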