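import Pool.Agent.PW.Defs

/-!
# Products of handles
-/

namespace Pool.Agent.PW

/-- The commutator. -/
def cm {G : Type*} [Group G] (x y : G) : G := x * y * x⁻¹ * y⁻¹

theorem map_cm {G H : Type*} [Group G] [Group H] (φ : G →* H) (x y : G) :
    φ (cm x y) = cm (φ x) (φ y) := by
  simp [cm]

variable {g n : ℕ}

/-- The handle `k`. -/
def hd (g n : ℕ) (k : ℕ) : F g n := if h : k < g then cm (ga ⟨k, h⟩) (gb ⟨k, h⟩) else 1

/-- The marked point `k`. -/
def pc (g n : ℕ) (k : ℕ) : F g n := if h : k < n then gc ⟨k, h⟩ else 1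

/-- A product of consecutive handles. -/
def seg (g n : ℕ) (s m : ℕ) : F g n := ((List.range' s m).map (hd g n)).prod

/-- A product of consecutive marked points. -/
def cseg (g n : ℕ) (s m : ℕ) : F g n := ((List.range' s m).map (pc g n)).prod

theorem hd_fin (i : Fin g) : hd g n i = cm (ga i) (gb i) := by
  simp [hd]

theorem pc_fin (i : Fin n) : pc g n i = gc i := by
  simp [pc]

theorem seg_zero (s : ℕ) : seg g n s 0 = 1 := by
  simp [seg]

theorem cseg_zero (s : ℕ) : cseg g n s 0 = 1 := by
  simp [cseg]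

theorem seg_one (s : ℕ) : seg g n s 1 = hd g n s := by
  simp [seg]

theorem cseg_one (s : ℕ) : cseg g n s 1 = pc g n s := by
  simp [cseg]

theorem seg_add (s m k : ℕ) : seg g n s (m + k) = seg g n s m * seg g n (s + m) k := by
  unfold seg
  rw [← List.prod_append, ← List.map_append, List.range'_append_1]

theorem cseg_add (s m k : ℕ) : cseg g n s (m + k) = cseg g n s m * cseg g n (s + m) k := by
  unfold cseg
  rw [← List.prod_append, ← List.map_append, List.range'_append_1]

theorem bdry_eq : bdry g n = seg g n 0 g * cseg g n 0 n := by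
  unfold bdry seg cseg
  congr 1
  · congr 1
    rw [← List.range_eq_range']
    apply List.ext_getElem
    · simp
    · intro k h1 h2
      simp only [List.length_ofFn] at h1
      simp [hd, h1, cm]
  · congr 1
    rw [← List.range_eq_range']
    apply List.ext_getElem
    · simp
    · intro k h1 h2
      simp only [List.length_ofFn] at h1
      simp [pc, h1]

/-- The boundary split at one handle. -/
theorem bdry_split (i : Fin g) : bdry g n =
    seg g n 0 i * cm (ga i) (gb i) * (seg g n (i + 1) (g - i - 1) * cseg g n 0 n) := by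
  rw [bdry_eq]
  have h : g = (i : ℕ) + (1 + (g - i - 1)) := by omega
  have h1 : seg g n 0 g = seg g n 0 ((i : ℕ) + (1 + (g - i - 1))) := by rw [← h]
  rw [h1, seg_add, seg_add, seg_one, Nat.zero_add, hd_fin]
  group

/-- The boundary split at two handles. -/
theorem bdry_split2 (i j : Fin g) (hij : (i : ℕ) < j) : bdry g n =
    seg g n 0 i * (cm (ga i) (gb i) * seg g n (i + 1) (j - i - 1) * cm (ga j) (gb j)) *
      (seg g n (j + 1) (g - j - 1) * cseg g n 0 n) := by
  rw [bdry_split i]
  have h : g - i - 1 = ((j : ℕ) - i - 1) + (1 + (g - j - 1)) := by omega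
  rw [h, seg_add, seg_add, seg_one]
  have h2 : (i : ℕ) + 1 + (j - i - 1) = j := by omega
  rw [h2, hd_fin]
  group

/-- The boundary split at a handle and a marked point. -/
theorem bdry_split3 (i : Fin g) (j : Fin n) : bdry g n =
    seg g n 0 i * (cm (ga i) (gb i) * (seg g n (i + 1) (g - i - 1) * cseg g n 0 j) * gc j) *
      cseg g n (j + 1) (n - j - 1) := by
  rw [bdry_split i]
  have h : n = (j : ℕ) + (1 + (n - j - 1)) := by omega
  have h1 : cseg g n 0 n = cseg g n 0 ((j : ℕ) + (1 + (n - j - 1))) := by rw [← h]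
  rw [h1, cseg_add, cseg_add, cseg_one, Nat.zero_add, pc_fin]
  group

section Hom

variable {H : Type*} [Group H]

theorem list_map_eq {l : List ℕ} {u v : ℕ → H} (h : ∀ k ∈ l, u k = v k) :
    (l.map u).prod = (l.map v).prod := by
  rw [List.map_congr_left h]

/-- Two homomorphisms which agree on some handles agree on their product. -/
theorem seg_congr {φ ψ : F g n →* H} {s m : ℕ}
    (h : ∀ i : Fin g, s ≤ i → (i : ℕ) < s + m → φ (ga i) = ψ (ga i) ∧ φ (gb i) = ψ (gb i)) :
    φ (seg g n s m) = ψ (seg g n s m) := by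
  unfold seg
  rw [map_list_prod, map_list_prod, List.map_map, List.map_map]
  apply list_map_eq
  intro k hk
  rw [List.mem_range'_1] at hk
  simp only [Function.comp]
  by_cases hkg : k < g
  · have := h ⟨k, hkg⟩ hk.1 hk.2
    simp only [hd, hkg, dif_pos, map_cm, this.1, this.2]
  · simp [hd, hkg]

theorem cseg_congr {φ ψ : F g n →* H} {s m : ℕ}
    (h : ∀ i : Fin n, s ≤ i → (i : ℕ) < s + m → φ (gc i) = ψ (gc i)) :
    φ (cseg g n s m) = ψ (cseg g n s m) := by
  unfold cseg
  rw [map_list_prod, map_list_prod, List.map_map, List.map_map]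
  apply list_map_eq
  intro k hk
  rw [List.mem_range'_1] at hk
  simp only [Function.comp]
  by_cases hkg : k < n
  · have := h ⟨k, hkg⟩ hk.1 hk.2
    simp only [pc, hkg, dif_pos, this]
  · simp [pc, hkg]

end Hom

theorem seg_mem {E : Subgroup (F g n)} {s m : ℕ}
    (h : ∀ i : Fin g, s ≤ i → (i : ℕ) < s + m → ga i ∈ E ∧ gb i ∈ E) : seg g n s m ∈ E := by
  unfold seg
  apply Subgroup.list_prod_mem
  intro x hx
  rw [List.mem_map] at hx
  obtain ⟨k, hk, rfl⟩ := hx
  rw [List.mem_range'_1] at hk
  by_cases hkg : k < g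
  · have := h ⟨k, hkg⟩ hk.1 hk.2
    simp only [hd, hkg, dif_pos, cm]
    exact E.mul_mem (E.mul_mem (E.mul_mem this.1 this.2) (E.inv_mem this.1)) (E.inv_mem this.2)
  · simp only [hd, hkg, dif_neg, not_false_iff]
    exact E.one_mem

theorem cseg_mem {E : Subgroup (F g n)} {s m : ℕ}
    (h : ∀ i : Fin n, s ≤ i → (i : ℕ) < s + m → gc i ∈ E) : cseg g n s m ∈ E := by
  unfold cseg
  apply Subgroup.list_prod_mem
  intro x hx
  rw [List.mem_map] at hx
  obtain ⟨k, hk, rfl⟩ := hx
  rw [List.mem_range'_1] at hk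
  by_cases hkg : k < n
  · have := h ⟨k, hkg⟩ hk.1 hk.2
    simp only [pc, hkg, dif_pos]
    exact this
  · simp only [pc, hkg, dif_neg, not_false_iff]
    exact E.one_mem

/-- A subgroup with all the generators is everything. -/
theorem eq_top_of_gens {E : Subgroup (F g n)} (ha : ∀ i, ga i ∈ E) (hb : ∀ i, gb i ∈ E)
    (hc : ∀ j, gc j ∈ E) : E = ⊤ := by
  rw [eq_top_iff, ← FreeGroup.closure_range_of, Subgroup.closure_le]
  rintro _ ⟨x, rfl⟩
  cases x with
  | a i => exact ha i
  | b i => exact hb i
  | c j => exact hc j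

/-- Homomorphisms which agree on the generators. -/
theorem hom_ext {H : Type*} [Group H] {φ ψ : F g n →* H} (ha : ∀ i, φ (ga i) = ψ (ga i))
    (hb : ∀ i, φ (gb i) = ψ (gb i)) (hc : ∀ j, φ (gc j) = ψ (gc j)) : φ = ψ := by
  apply FreeGroup.ext_hom
  intro x
  cases x with
  | a i => exact ha i
  | b i => exact hb i
  | c j => exact hc j

end Pool.Agent.PW
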